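import Mathlib

set_option autoImplicit false

/-! # Project QL (helper728): Conjecture F for almost all linear coefficients. Definitions and the statements of the
subtasks.

`f_b(t) = a t ^ 2 + b t + c = u v + c` with `u = t`, `v = b + a t`. -/

namespace Pool.Agent.N728.QL

open Finset MeasureTheory

noncomputable section

/-- `∏_{w < p ≤ y} (1 - 1/p)` -/
def VW (w y : ℕ) : ℝ := ∏ p ∈ (Ioc w y).filter Nat.Prime, (1 - 1 / (p : ℝ))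

/-- `∏_{w < p ≤ y} p` -/
def PP (w y : ℕ) : ℕ := ∏ p ∈ (Ioc w y).filter Nat.Prime, p

/-- no prime factor in `(w, y]` -/
def Rg (w y : ℕ) (n : ℤ) : Prop := ∀ p : ℕ, p.Prime → w < p → p ≤ y → ¬ (p : ℤ) ∣ n

open Classical in
/-- the indicator function of `Rg` -/
def rg (w y : ℕ) (n : ℤ) : ℝ := if Rg w y n then 1 else 0

open Classical in
/-- the sieve model for the primes -/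
def lz (z : ℕ) (n : ℤ) : ℝ := if Rg 0 z n then (VW 0 z)⁻¹ else 0

/-- the primes with the weight `log p` -/
def lp (n : ℤ) : ℝ := if n.toNat.Prime then Real.log n else 0

/-- the difference -/
def EE (z : ℕ) (n : ℤ) : ℝ := lp n - lz z n

/-- the window of `m`: `ρ ^ j ≤ m < ρ ^ (j + 1)` -/
def jw (ρ : ℝ) (m : ℕ) : ℕ := ⌊Real.log m / Real.log ρ⌋₊

/-- the windows that contain a divisor of `M` -/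
def Wn (ρ : ℝ) (M : ℕ) : Finset ℕ := M.divisors.image (jw ρ)

/-- the divisors of `M` in the window `j` -/
def Dv (ρ : ℝ) (M j : ℕ) : Finset ℕ := M.divisors.filter (fun m => jw ρ m = j)

/-- the product of the primes `p ∣ n` in `(w, y]` -/
def pp (w y n : ℕ) : ℕ := ∏ p ∈ n.primeFactors.filter (fun p => w < p ∧ p ≤ y), p

/-- the bad pairs -/
def Bad (T w y M0 : ℕ) (ρ : ℝ) (u v : ℕ) : Prop :=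
  (∃ p : ℕ, p.Prime ∧ w < p ∧ p ≤ y ∧ p ^ 2 ∣ u * v) ∨ M0 < pp w y (u * v) ∨ (T : ℝ) < ρ * u

def AA (N : ℕ → ℝ) (w y : ℕ) (ρ : ℝ) (T Y M j : ℕ) : ℝ :=
  ∑ x ∈ Icc 1 ⌊(T : ℝ) / ρ ^ (j + 1)⌋₊, ∑ t ∈ Icc 1 ⌊(Y : ℝ) * ρ ^ (j + 1) / M⌋₊,
    rg w y x * rg w y t * N (M * x * t)

def DD (φ : ℕ → ℕ → ℝ) (N : ℕ → ℝ) (w y : ℕ) (ρ : ℝ) (T Y M j : ℕ) : ℝ :=
  ∑ x ∈ Icc 1 ⌊(T : ℝ) / ρ ^ (j + 1)⌋₊, ∑ t ∈ Icc 1 ⌊(Y : ℝ) * ρ ^ (j + 1) / M⌋₊,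
    rg w y x * rg w y t * N (M * x * t) * (∑ m ∈ Dv ρ M j, φ (m * x) (M / m * t)) ^ 2

open Classical in
/-- ORB. The orbit argument: `u v` does not change if a divisor is moved from `u` to `v`. -/
def S_ORB : Prop := ∀ (T Y w y M0 : ℕ) (ρ : ℝ) (φ : ℕ → ℕ → ℝ) (E N : ℕ → ℝ), 1 < ρ →
  (∀ u v, |φ u v| ≤ 1) → (∀ u v, u ≤ T → Y < v → φ u v = 0) → (∀ n, |E n| ≤ N n) →
  |∑ u ∈ Icc 1 T, ∑ v ∈ Icc 1 Y, φ u v * E (u * v)| ≤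
    (∑ u ∈ Icc 1 T, ∑ v ∈ Icc 1 Y, if Bad T w y M0 ρ u v then N (u * v) else 0) +
    √(∑ M ∈ (PP w y).divisors.filter (fun M => M ≤ M0), ∑ j ∈ Wn ρ M, AA N w y ρ T Y M j) *
    √(∑ M ∈ (PP w y).divisors.filter (fun M => M ≤ M0), ∑ j ∈ Wn ρ M, DD φ N w y ρ T Y M j)

/-- EK. Few windows contain a divisor of `M` (the Erdős multiplication table phenomenon). -/
def S_EK : Prop := ∃ C : ℝ, 0 < C ∧ ∀ (w y : ℕ) (ρ : ℝ), 2 ≤ w → w ≤ y → 1 < ρ → ρ ≤ 2 →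
  VW w y ^ 2 * ∑ M ∈ (PP w y).divisors, ((Wn ρ M).card : ℝ) / (Nat.totient M : ℝ) ≤
    C * (ρ - 1) ^ (-(1 / 2) : ℝ) * Real.log w ^ (3 / 5 : ℝ) * Real.log y ^ (-(1 / 12) : ℝ)

/-- MER. Mertens. -/
def S_MER : Prop := ∃ C : ℝ, 1 ≤ C ∧
  (∀ w y : ℕ, 2 ≤ w → w ≤ y → Real.log y / Real.log w ≤ C * (VW w y)⁻¹ ∧
    (VW w y)⁻¹ ≤ C * (Real.log y / Real.log w)) ∧
  (∀ z : ℕ, 2 ≤ z → Real.log z ≤ C * (VW 0 z)⁻¹ ∧ (VW 0 z)⁻¹ ≤ C * Real.log z)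

open Classical in
/-- FLC. The fundamental lemma of the sieve for at most 8 classes for every prime. -/
def S_FLC : Prop := ∃ K : ℕ, 1 ≤ K ∧ ∀ (b z1 : ℕ) (Om : ℕ → Finset ℕ) (J1 J2 : ℤ), K ≤ b → 2 ≤ z1 →
  (∀ p : ℕ, p.Prime → p ≤ z1 → Om p ⊆ range p ∧ (Om p).card ≤ 8) → J1 ≤ J2 →
  |(((Ioc J1 J2).filter (fun t : ℤ => ∀ p : ℕ, p.Prime → p ≤ z1 → (t % p).toNat ∉ Om p)).card : ℝ) -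
      ((J2 : ℝ) - J1) * ∏ p ∈ (Ioc 0 z1).filter Nat.Prime, (1 - ((Om p).card : ℝ) / p)| ≤
    (1 / 2 : ℝ) ^ b * (((J2 : ℝ) - J1) * ∏ p ∈ (Ioc 0 z1).filter Nat.Prime, (1 - ((Om p).card : ℝ) / p)) +
      (z1 : ℝ) ^ (K * b)

/-- U1. Upper bound sieve in a box, with a smooth factor `M` and two rough variables. -/
def S_U1 (c : ℤ) : Prop := ∃ C : ℝ, 0 < C ∧ ∃ k0 B0 : ℕ, ∀ B : ℕ, B0 ≤ B →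
  ∀ z w y M X I1 I2 : ℕ, 2 ≤ z → 1 ≤ w → w ≤ y → z ^ k0 ≤ B → y ^ k0 ≤ B → M ^ k0 ≤ B → M ∣ PP w y →
  B ≤ X ^ 4 → X ≤ B ^ 2 → I1 ≤ I2 → B ≤ (I2 - I1) ^ 4 → I2 ≤ B ^ 2 →
  ∑ x ∈ Icc 1 X, ∑ t ∈ Ioc I1 I2, rg w y x * rg w y t * lz z ((M : ℤ) * x * t + c) ≤
    C * ((M : ℝ) / Nat.totient M) * VW w y ^ 2 * ((X : ℝ) * ((I2 : ℝ) - I1))

/-- U0. Upper bound sieve in a box, with divisibility conditions. -/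
def S_U0 (c : ℤ) : Prop := ∃ C : ℝ, 0 < C ∧ ∃ k0 B0 : ℕ, ∀ B : ℕ, B0 ≤ B →
  ∀ z d1 d2 X1 X2 I1 I2 : ℕ, 2 ≤ z → z ^ k0 ≤ B → 1 ≤ d1 → 1 ≤ d2 → d1 ^ k0 ≤ B → d2 ^ k0 ≤ B →
  X1 ≤ X2 → B ≤ (X2 - X1) ^ 4 → X2 ≤ B ^ 2 → I1 ≤ I2 → B ≤ (I2 - I1) ^ 4 → I2 ≤ B ^ 2 →
  ∑ u ∈ (Ioc X1 X2).filter (fun u => d1 ∣ u), ∑ v ∈ (Ioc I1 I2).filter (fun v => d2 ∣ v),
    lz z ((u : ℤ) * v + c) ≤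
    C * (((X2 : ℝ) - X1) * ((I2 : ℝ) - I1)) / ((Nat.totient d1 : ℝ) * Nat.totient d2)

open Classical in
/-- BAD. The bad pairs contribute little. -/
def S_BAD (c : ℤ) : Prop := ∃ C : ℝ, 0 < C ∧ ∃ k0 B0 : ℕ, ∀ B : ℕ, B0 ≤ B →
  ∀ (z w y M0 T Y : ℕ) (ρ : ℝ), 2 ≤ z → z ^ k0 ≤ B → 2 ≤ w → w ≤ y → y ^ k0 ≤ B → 1 ≤ M0 → M0 ^ k0 ≤ B →
  B ≤ T ^ 2 → T ≤ B ^ 2 → B ≤ Y ^ 2 → Y ≤ B ^ 2 → 1 + 1 / Real.log B ≤ ρ → ρ ≤ 2 →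
  ∑ u ∈ Icc 1 T, ∑ v ∈ Icc 1 Y, (if Bad T w y M0 ρ u v then lz z ((u : ℤ) * v + c) else 0) ≤
    C * ((T : ℝ) * Y) * (1 / w + (ρ - 1) + Real.log y ^ C * Real.exp (-(Real.log M0 / (2 * Real.log y))))

/-! ### Stage A: zero mean on cells -/

/-- `F` has mean zero on the cells (class modulo `q`, block of length `H`) -/
def ZeroMean (F : ℤ → ℝ) (q H : ℕ) : Prop := ∀ r k : ℤ,
  ∑ b ∈ (Ico (k * H) ((k + 1) * H)).filter (fun b => b ≡ r [ZMOD q]), F b = 0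

/-- `F` is constant on the cells -/
def CellConst (F : ℤ → ℝ) (q H : ℕ) : Prop := ∀ b b' : ℤ, b ≡ b' [ZMOD q] → b / H = b' / H → F b = F b'

/-- `|F| ≤ 1`, supported in `(B, 2 B]` -/
def Adm (F : ℤ → ℝ) (B : ℕ) : Prop := (∀ b, |F b| ≤ 1) ∧ ∀ b, ¬ ((B : ℤ) < b ∧ b ≤ 2 * B) → F b = 0

/-- the bilinear sum -/
def SF (a c : ℤ) (z B T : ℕ) (F : ℤ → ℝ) : ℝ :=
  ∑ u ∈ Icc 1 T, ∑ v ∈ Icc 1 (4 * B), F ((v : ℤ) - a * u) * EE z ((u : ℤ) * v + c)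

/-- the difference of two models -/
def dz (z z1 : ℕ) (n : ℤ) : ℝ := lz z1 n - lz z n

/-- GVN. Two applications of the Cauchy-Schwarz inequality. -/
def S_GVN : Prop := ∀ (X Y B A A' : ℕ) (C C' : ℤ) (f : ℤ → ℤ → ℝ) (F1 F2 : ℤ → ℝ),
  0 < A → 0 < A' → IsCoprime (A : ℤ) C → IsCoprime (A' : ℤ) C' → A ≤ X → A' ≤ X →
  (∀ x y : ℤ, ¬ (1 ≤ x ∧ x ≤ X ∧ 1 ≤ y ∧ y ≤ Y) → f x y = 0) → Adm F1 B → Adm F2 B →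
  (∑ x ∈ Icc (1 : ℤ) X, ∑ y ∈ Icc (1 : ℤ) Y, f x y * F1 (A * y - C * x) * F2 (A' * y - C' * x)) ^ 4 ≤
    (B : ℝ) ^ 3 * (3 * X / A) *
      ∑ t ∈ Icc (-((X / A : ℕ) : ℤ)) ((X / A : ℕ) : ℤ), ∑ r ∈ Icc (-((X / A' : ℕ) : ℤ)) ((X / A' : ℕ) : ℤ),
        |∑ x ∈ Icc (1 : ℤ) X, ∑ y ∈ Icc (1 : ℤ) Y, f x y * f (x + t * A) (y + t * C) *
          f (x + r * A') (y + r * C') * f (x + t * A + r * A') (y + t * C + r * C')|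

/-- `∏_{p ∣ D, p > s} (1 + 8/p)` -/
def hq (s : ℕ) (D : ℤ) : ℝ := ∏ p ∈ D.natAbs.primeFactors.filter (fun p => s < p), (1 + 8 / (p : ℝ))

/-- the discriminant of the four forms `M x_i (y + θ_i) + c` -/
def Dl (c : ℤ) (M : ℕ) (x θ : Fin 4 → ℤ) : ℤ :=
  (∏ i, x i) * ∏ ij ∈ (univ : Finset (Fin 4 × Fin 4)).filter (fun ij => ij.1 < ij.2),
    ((M : ℤ) * x ij.1 * x ij.2 * (θ ij.1 - θ ij.2) + c * (x ij.2 - x ij.1))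

/-- FLB. The fundamental lemma of the sieve for four forms. -/
def S_FLB (c : ℤ) : Prop := ∃ K : ℕ, 1 ≤ K ∧ ∀ (b w y z z1 M : ℕ) (x θ : Fin 4 → ℤ) (J1 J2 : ℤ),
  K ≤ b → K ≤ z → 2 ≤ w → c.natAbs ≤ w → w ≤ y → y ≤ z → z ≤ z1 → M ∣ PP w y → J1 ≤ J2 → Dl c M x θ ≠ 0 →
  |∑ t ∈ Ioc J1 J2, ∏ i, (rg w y (t + θ i) * dz z z1 (M * x i * (t + θ i) + c))| ≤
    K * (VW 0 y)⁻¹ ^ 4 * ((J2 : ℝ) - J1) *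
      (hq y (Dl c M x θ) ^ 2 * ((1 / 2 : ℝ) ^ b + 1 / z) + hq y (Dl c M x θ) * (hq z (Dl c M x θ) - 1)) +
    (z1 : ℝ) ^ (K * b)

/-- the four points of a parallelogram -/
def xs (A A' : ℤ) (x t r : ℤ) : Fin 4 → ℤ := ![x, x + t * A, x + r * A', x + t * A + r * A']
def ts (C C' : ℤ) (t r : ℤ) : Fin 4 → ℤ := ![0, t * C, r * C', t * C + r * C']

open Classical in
/-- AV1. The parallelograms whose discriminant is divisible by `d`, or zero. -/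
def S_AV1 (c : ℤ) : Prop := ∃ K : ℝ, 0 < K ∧ ∀ (M A A' : ℕ) (C C' : ℤ) (X R R' : ℕ), 1 ≤ M → 1 ≤ A → 1 ≤ A' →
  1 ≤ X → 1 ≤ R → 1 ≤ R' →
  (∀ d : ℕ, Squarefree d → (∀ p : ℕ, p.Prime → p ∣ d → ¬ p ∣ M * A * A' ∧ ¬ (p : ℤ) ∣ c) → d ≤ X → d ≤ R → d ≤ R' →
    (∑ x ∈ Icc (1 : ℤ) X, ∑ t ∈ Icc (-(R : ℤ)) R, ∑ r ∈ Icc (-(R' : ℤ)) R',
      (if (d : ℤ) ∣ Dl c M (xs A A' x t r) (ts C C' t r) then (1 : ℝ) else 0)) ≤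
      K * 20 ^ d.primeFactors.card / d * ((X : ℝ) * R * R')) ∧
  (∑ x ∈ Icc (1 : ℤ) X, ∑ t ∈ Icc (-(R : ℤ)) R, ∑ r ∈ Icc (-(R' : ℤ)) R',
      (if Dl c M (xs A A' x t r) (ts C C' t r) = 0 then (1 : ℝ) else 0)) ≤
      K * ((R : ℝ) * R' + X * R' + X * R)

/-- AVG. The average of `hq` over the parallelograms. -/
def S_AVG (c : ℤ) : Prop := ∃ K : ℝ, 0 < K ∧ ∀ (s M A A' : ℕ) (C C' : ℤ), 2 ≤ s → 1 ≤ M → 1 ≤ A → 1 ≤ A' →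
  (∀ p : ℕ, p.Prime → s < p → ¬ p ∣ M * A * A' ∧ ¬ (p : ℤ) ∣ c) →
  ∃ B0 : ℕ, ∀ B : ℕ, B0 ≤ B → ∀ X R R' : ℕ, B ≤ X ^ 4 → B ≤ R ^ 4 → B ≤ R' ^ 4 → X ≤ B ^ 2 → R ≤ B ^ 2 →
  R' ≤ B ^ 2 →
  (∑ x ∈ Icc (1 : ℤ) X, ∑ t ∈ Icc (-(R : ℤ)) R, ∑ r ∈ Icc (-(R' : ℤ)) R',
    (if Dl c M (xs A A' x t r) (ts C C' t r) = 0 then 0 else
      hq s (Dl c M (xs A A' x t r) (ts C C' t r)) ^ 2 - 1) ≤ K / s * ((X : ℝ) * R * R')) ∧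
  (∑ x ∈ Icc (1 : ℤ) X, ∑ t ∈ Icc (-(R : ℤ)) R, ∑ r ∈ Icc (-(R' : ℤ)) R',
    (if Dl c M (xs A A' x t r) (ts C C' t r) = 0 then (1 : ℝ) else 0) ≤ (X : ℝ) * R * R' / Real.log B ^ 10)

open Classical in
/-- the weight in the box -/
def fB (c : ℤ) (w y z z1 X Y M : ℕ) (x t : ℤ) : ℝ :=
  if 1 ≤ x ∧ x ≤ X ∧ 1 ≤ t ∧ t ≤ Y then rg w y x * rg w y t * dz z z1 (M * x * t + c) else 0

/-- BOX. The Gowers type norm of the difference of the models is small. -/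
def S_BOX (c : ℤ) : Prop := ∃ K : ℕ, 1 ≤ K ∧ ∀ k w y M0 : ℕ, K ≤ k → 2 ≤ w → c.natAbs ≤ w → w ≤ y → 3 ≤ y →
  ∀ ε : ℝ, 0 < ε → ∃ z0 : ℕ, ∀ z : ℕ, z0 ≤ z → ∃ B0 : ℕ, ∀ B : ℕ, B0 ≤ B →
  ∀ (z1 X Y M A A' : ℕ) (C C' : ℤ), z ≤ z1 → z1 ^ k ≤ B → M ∣ PP w y → M ≤ M0 → A ∣ M → A' ∣ M →
  C.natAbs ≤ M0 → C'.natAbs ≤ M0 → B ≤ X ^ 3 → X ≤ B ^ 2 → B ≤ Y ^ 3 → Y ≤ B ^ 2 →
  ∑ t ∈ Icc (-((X / A : ℕ) : ℤ)) ((X / A : ℕ) : ℤ), ∑ r ∈ Icc (-((X / A' : ℕ) : ℤ)) ((X / A' : ℕ) : ℤ),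
    |∑ x ∈ Icc (1 : ℤ) X, ∑ s ∈ Icc (1 : ℤ) Y, fB c w y z z1 X Y M x s * fB c w y z z1 X Y M (x + t * A) (s + t * C) *
      fB c w y z z1 X Y M (x + r * A') (s + r * C') * fB c w y z z1 X Y M (x + t * A + r * A') (s + t * C + r * C')| ≤
    (K * Real.log y ^ K * (2 : ℝ) ^ (-((k : ℝ) / K)) + ε) * ((X : ℝ) * Y * (X / A) * (X / A'))

/-- OFF. The off-diagonal terms for the difference of the models. -/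
def S_OFF (a c : ℤ) : Prop := ∃ K : ℕ, 1 ≤ K ∧ ∀ k w y M0 : ℕ, K ≤ k → 2 ≤ w → c.natAbs ≤ w → a.natAbs ≤ w → w ≤ y →
  ∀ ε : ℝ, 0 < ε → ∃ z0 : ℕ, ∀ z : ℕ, z0 ≤ z → ∃ B0 : ℕ, ∀ B : ℕ, B0 ≤ B →
  ∀ (z1 X Y M m m' : ℕ) (F : ℤ → ℝ), z ≤ z1 → z1 ^ k ≤ B → M ∣ PP w y → M ≤ M0 → m ∣ M → m' ∣ M → m ≠ m' →
  B ≤ X ^ 3 → X ≤ B ^ 2 → Y ≤ B ^ 2 → B ≤ M / m * Y → B ≤ M / m' * Y → Adm F B →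
  |∑ x ∈ Icc 1 X, ∑ t ∈ Icc 1 Y, rg w y x * rg w y t * dz z z1 ((M : ℤ) * x * t + c) *
      F (((M / m : ℕ) : ℤ) * t - a * m * x) * F (((M / m' : ℕ) : ℤ) * t - a * m' * x)| ≤
    (K * Real.log y ^ K * (2 : ℝ) ^ (-((k : ℝ) / K)) + ε) * ((X : ℝ) * Y)

/-- SP. The off-diagonal terms for the periodic model. -/
def S_SP (a c : ℤ) : Prop := ∀ w y z M m m' q : ℕ, 1 ≤ q → a.natAbs ≤ w → w ≤ y → y ≤ z → M ∣ PP w y → m ∣ M →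
  m' ∣ M → m ≠ m' → ((PP 0 z : ℤ) * (a * M * ((m : ℤ) ^ 2 - (m' : ℤ) ^ 2))) ∣ (q : ℤ) →
  ∀ ε : ℝ, 0 < ε → ∃ η : ℝ, 0 < η ∧ ∃ B0 : ℕ, ∀ B : ℕ, B0 ≤ B → ∀ (X Y H : ℕ) (F : ℤ → ℝ), 1 ≤ H →
  (H : ℝ) ≤ η * X → B ≤ X ^ 3 → X ≤ B ^ 2 → Y ≤ B ^ 2 → B ≤ M / m * Y → B ≤ M / m' * Y → Adm F B →
  ZeroMean F q H →
  |∑ x ∈ Icc 1 X, ∑ t ∈ Icc 1 Y, rg w y x * rg w y t * lz z ((M : ℤ) * x * t + c) *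
      F (((M / m : ℕ) : ℤ) * t - a * m * x) * F (((M / m' : ℕ) : ℤ) * t - a * m' * x)| ≤ ε * ((X : ℝ) * Y)

/-- Stage A. -/
def S_A (a c : ℤ) : Prop := ∀ ε : ℝ, 0 < ε → ∃ z0 : ℕ, ∀ z : ℕ, z0 ≤ z → ∃ q : ℕ, 1 ≤ q ∧ PP 0 z ∣ q ∧
  (∀ p : ℕ, p.Prime → p ∣ q → p ≤ z) ∧ ∃ η : ℝ, 0 < η ∧ ∃ B0 : ℕ, ∀ B : ℕ, B0 ≤ B →
  ∀ (T H : ℕ) (F : ℤ → ℝ), B ≤ T ^ 2 → 2 * a.natAbs * T ≤ B → 1 ≤ H → (H : ℝ) ≤ η * T → Adm F B →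
  ZeroMean F q H → |SF a c z B T F| ≤ ε * ((B : ℝ) * T)

/-! ### Stage B: constant on cells -/

/-- QBA. -/
def S_QBA : Prop := ∃ C : ℝ, 0 < C ∧ ∀ w y : ℕ, 2 ≤ w → w ≤ y → 3 ≤ y →
  ∑ m ∈ (PP w y).divisors.filter (fun m => m ≠ 1), 1 / ((m : ℝ) * Real.log m) ≤
    C * (1 + Real.log (Real.log y)) / Real.log w

/-- PS. Sums over the primes in short multiplicative intervals, in classes. -/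
def S_PS : Prop := ∀ q A : ℕ, 1 ≤ q → ∃ C : ℝ, 0 < C ∧ ∃ w0 : ℕ, 3 ≤ w0 ∧ ∀ w N1 N2 β : ℕ, w0 ≤ w → w ≤ N1 → N1 ≤ N2 →
  N2 ≤ 4 * N1 → Nat.Coprime β q → ∀ (Ψ : ℝ → ℝ) (M1 L1 : ℝ), 0 ≤ L1 →
  (∀ s, Real.log N1 ≤ s → s ≤ Real.log N2 → |Ψ s| ≤ M1) →
  (∀ s s', Real.log N1 ≤ s → s ≤ Real.log N2 → Real.log N1 ≤ s' → s' ≤ Real.log N2 → |Ψ s - Ψ s'| ≤ L1 * |s - s'|) →
  |∑ p ∈ (Ioc N1 N2).filter (fun p => p.Prime ∧ p ≡ β [MOD q]), Real.log p / p * Ψ (Real.log p) -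
    (1 / (Nat.totient q : ℝ)) * ∫ s in (Real.log N1)..(Real.log N2), Ψ s| ≤ C * (M1 + L1) / Real.log w ^ A

/-- QB. The off-diagonal terms for functions with small integrals. -/
def S_QB : Prop := ∀ q K : ℕ, 1 ≤ q → ∃ C : ℝ, 0 < C ∧ ∃ w0 : ℕ, ∀ w y : ℕ, w0 ≤ w → w ≤ y →
  Real.log y ≤ Real.log w ^ K → ∀ (L s0 ρ : ℝ) (g : ℝ → ℝ) (α : ℕ), 1 ≤ L → L ≤ Real.log w ^ K → 1 < ρ → ρ ≤ 2 →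
  (∀ s, |g s| ≤ 2) → (∀ s s', |g s - g s'| ≤ L * |s - s'|) → (∀ s, ¬ (s0 ≤ s ∧ s ≤ s0 + 10) → g s = 0) →
  (∀ s1 s2 : ℝ, s1 ≤ s2 → |∫ s in s1..s2, g s| ≤ 1 / Real.log y) →
  VW w y ^ 2 * ∑ M ∈ (PP w y).divisors, ∑ j ∈ Wn ρ M, (1 / (Nat.totient M : ℝ)) *
    ∫ s : ℝ, (∑ m ∈ (Dv ρ M j).filter (fun m => m ≡ α [MOD q]), g (s - Real.log m)) ^ 2 ≤
    C * (1 + Real.log (Real.log y))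

/-- DS. The weighted sieve bound. -/
def S_DS (c : ℤ) : Prop := ∃ C : ℝ, 0 < C ∧ ∃ k0 B0 : ℕ, ∀ B : ℕ, B0 ≤ B →
  ∀ (z w y M X Y : ℕ) (D : Finset ℕ) (L s0 : ℝ) (g : ℝ → ℝ), 2 ≤ z → 1 ≤ w → w ≤ y → z ^ k0 ≤ B → y ^ k0 ≤ B →
  M ^ k0 ≤ B → M ∣ PP w y → B ≤ X ^ 3 → X ≤ B ^ 2 → B ≤ Y ^ 3 → Y ≤ B ^ 2 → D.card ^ k0 ≤ B → (∀ m ∈ D, 1 ≤ m) →
  1 ≤ L → L ^ k0 ≤ B → (∀ s, |g s| ≤ 2) → (∀ s s', |g s - g s'| ≤ L * |s - s'|) →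
  (∀ s, ¬ (s0 ≤ s ∧ s ≤ s0 + 10) → g s = 0) →
  ∑ x ∈ Icc 1 X, ∑ t ∈ Icc 1 Y, rg w y x * rg w y t * lz z ((M : ℤ) * x * t + c) *
      (∑ m ∈ D, g (Real.log M + Real.log t - Real.log m)) ^ 2 ≤
    C * ((M : ℝ) / Nat.totient M) * VW w y ^ 2 * ((X : ℝ) * Y) *
      ((∫ s : ℝ, (∑ m ∈ D, g (s - Real.log m)) ^ 2) + 1 / Real.log B)

/-- B2. Functions of `v` with small integrals. -/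
def S_B2 (c : ℤ) : Prop := ∀ (q z K : ℕ) (ε : ℝ), 1 ≤ q → 2 ≤ z → 0 < ε → ∃ B0 : ℕ, ∀ B : ℕ, B0 ≤ B →
  ∀ (T u0 v0 : ℕ) (g : ℝ → ℝ) (L : ℝ), B ≤ T ^ 2 → T ≤ B → 1 ≤ L → L ≤ Real.log B ^ K → (∀ s, |g s| ≤ 2) →
  (∀ s s', |g s - g s'| ≤ L * |s - s'|) →
  (∀ s, ¬ (Real.log ((B : ℝ) / 2) ≤ s ∧ s ≤ Real.log (4 * (B : ℝ))) → g s = 0) →
  (∀ s1 s2 : ℝ, s1 ≤ s2 → |∫ s in s1..s2, g s| ≤ 1 / Real.sqrt (Real.log B)) →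
  |∑ u ∈ (Icc 1 T).filter (fun u => u ≡ u0 [MOD q]), ∑ v ∈ (Icc 1 (4 * B)).filter (fun v => v ≡ v0 [MOD q]),
    g (Real.log v) * EE z ((u : ℤ) * v + c)| ≤ ε * ((B : ℝ) * T)

/-- SM. Additive and then multiplicative smoothing of a step function. -/
def S_SM : Prop := ∃ C : ℝ, 1 ≤ C ∧ ∀ (B H δ ℓ σ : ℝ) (G0 : ℝ → ℝ), 1 ≤ B → 0 < H → 10 * H ≤ B → 0 < δ → δ ≤ 1 / 2 →
  10 ≤ ℓ → (∀ v, |G0 v| ≤ 1) → (∀ v v', ⌊(v - σ) / H⌋ = ⌊(v' - σ) / H⌋ → G0 v = G0 v') →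
  (∀ v, ¬ (7 / 10 * B ≤ v ∧ v ≤ 32 / 10 * B) → G0 v = 0) →
  ∃ g G : ℝ → ℝ, (∀ s, |g s| ≤ 2) ∧ (∀ s s', |g s - g s'| ≤ C * (B / (δ * H) + ℓ) * |s - s'|) ∧
    (∀ s, ¬ (Real.log (B / 2) ≤ s ∧ s ≤ Real.log (4 * B)) → g s = 0) ∧
    (∀ s1 s2 : ℝ, s1 ≤ s2 → |∫ s in s1..s2, g s| ≤ 1 / ℓ) ∧
    (∀ v, |G v| ≤ 1) ∧ (∀ v v', |G v - G v'| ≤ C * ℓ * |v - v'| / B) ∧
    (∀ v, 0 < v → |G v + g (Real.log v)| ≤ 1) ∧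
    (∀ v, 0 < v → (∀ k : ℤ, δ * H ≤ |v - σ - k * H|) → G0 v = G v + g (Real.log v))

/-- BVH. The theorem of Bombieri and Vinogradov at the sharp level with free heights and free classes. -/
def S_BVH : Prop := ∀ A : ℕ, ∃ K X0 : ℕ, ∀ x : ℕ, X0 ≤ x → ∀ D : ℕ, (D : ℝ) ^ 2 * Real.log x ^ K ≤ x →
  ∀ r h : ℕ → ℕ, (∀ m ∈ Icc 1 D, Nat.Coprime (r m) m) → (∀ m, h m ≤ x) →
  ∑ m ∈ Icc 1 D, |∑ p ∈ (Icc 1 (h m)).filter (fun p => p.Prime ∧ p ≡ r m [MOD m]), Real.log p -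
    (h m : ℝ) / Nat.totient m| ≤ x / Real.log x ^ A

/-- HZ. -/
def S_HZ : Prop := ∃ K : ℝ, 0 < K ∧ ∀ z q u0 U1 U2 : ℕ, 2 ≤ z → 1 ≤ q → (∀ p : ℕ, p.Prime → p ∣ q → p ≤ z) →
  U1 ≤ U2 → 2 ≤ U2 →
  ∑ u ∈ (Ioc U1 U2).filter (fun u => u ≡ u0 [MOD q]),
    ((∏ p ∈ u.primeFactors.filter (fun p => z < p), (1 - 1 / (p : ℝ))⁻¹) - 1) ≤
    K * (((U2 : ℝ) - U1) / (z * q) + Real.log U2)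

/-- B4. Slowly varying functions of `v`. -/
def S_B4 (c : ℤ) : Prop := ∃ (C1 : ℕ) (K : ℝ), 0 < K ∧ ∀ (q z : ℕ) (ε : ℝ), 1 ≤ q → 2 ≤ z → c.natAbs ≤ z → 0 < ε →
  PP 0 z ∣ q → (∀ p : ℕ, p.Prime → p ∣ q → p ≤ z) → ∃ B0 : ℕ, ∀ B : ℕ, B0 ≤ B →
  ∀ (T U1 U2 u0 v0 : ℕ) (G : ℕ → ℝ), B ≤ T ^ 2 → (T : ℝ) * Real.log B ^ C1 ≤ B → U1 ≤ U2 → U2 ≤ T →
  (∀ v, |G v| ≤ 1) → (∀ v, |G (v + 1) - G v| ≤ Real.log B / B) →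
  |∑ u ∈ (Ioc U1 U2).filter (fun u => u ≡ u0 [MOD q]), ∑ v ∈ (Icc 1 (4 * B)).filter (fun v => v ≡ v0 [MOD q]),
    G v * EE z ((u : ℤ) * v + c)| ≤
    K * (VW 0 z)⁻¹ / (z * (q : ℝ) ^ 2) * (B * ((U2 : ℝ) - U1)) + ε * ((B : ℝ) * T)

/-- Stages B and C. -/
def S_BC (a c : ℤ) : Prop := ∃ (C1 : ℕ) (K : ℝ), 0 < K ∧ ∀ (q z C2 : ℕ) (ε η : ℝ), 1 ≤ q → 2 ≤ z → c.natAbs ≤ z →
  0 < ε → 0 < η → PP 0 z ∣ q → (∀ p : ℕ, p.Prime → p ∣ q → p ≤ z) → ∃ B0 : ℕ, ∀ B : ℕ, B0 ≤ B →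
  ∀ (T H : ℕ) (F : ℤ → ℝ), (B : ℝ) ≤ T * Real.log B ^ C2 → (T : ℝ) * Real.log B ^ C1 ≤ B → q ∣ H →
  η * T ≤ H → H ≤ T → Adm F B → CellConst F q H →
  |SF a c z B T F| ≤ (K * (VW 0 z)⁻¹ / z + ε) * ((B : ℝ) * T)

/-- The main theorem for the bilinear sum. -/
def S_MC (a c : ℤ) : Prop := ∃ C1 : ℕ, ∀ ε : ℝ, 0 < ε → ∃ z0 : ℕ, ∀ z : ℕ, z0 ≤ z → ∀ C2 : ℕ, ∃ B0 : ℕ, ∀ B : ℕ,
  B0 ≤ B → ∀ T : ℕ, (B : ℝ) ≤ T * Real.log B ^ C2 → (T : ℝ) * Real.log B ^ C1 ≤ B →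
  ∑ b ∈ Ioc B (2 * B), |∑ t ∈ Icc 1 T, EE z (a * (t : ℤ) ^ 2 + b * t + c)| ≤ ε * ((B : ℝ) * T)

/-! ### The final theorem -/

/-- number of roots of `a t ^ 2 + b t + c` modulo `p` -/
def om (a b c : ℤ) (p : ℕ) : ℕ := ((range p).filter (fun t : ℕ => (p : ℤ) ∣ a * (t : ℤ) ^ 2 + b * t + c)).card

/-- the singular series up to `z` -/
def Sg (a b c : ℤ) (z : ℕ) : ℝ := ∏ p ∈ (Ioc 0 z).filter Nat.Prime, (1 - (om a b c p : ℝ) / p) / (1 - 1 / (p : ℝ))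

/-- LOC. -/
def S_LOC : Prop := ∀ (a c : ℤ) (z : ℕ), ∃ C : ℝ, 0 < C ∧ ∀ (b : ℤ) (T1 T2 : ℕ), T1 ≤ T2 →
  |∑ t ∈ Ioc T1 T2, lz z (a * (t : ℤ) ^ 2 + b * t + c) - ((T2 : ℝ) - T1) * Sg a b c z| ≤ C

/-- The triple `(a, b, c)`, `a > 0`, is admissible. -/
def Admissible (a b c : ℤ) : Prop :=
  Int.gcd (Int.gcd a b : ℤ) c = 1 ∧ ¬ (Even (a + b) ∧ Even c) ∧ ¬ IsSquare (b ^ 2 - 4 * a * c)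

/-- The products which define `C(a, b, c)`, over the primes `p ≤ z` (`jacobiSym Δ p` is the Legendre symbol). -/
def partialC (a b c : ℤ) (z : ℕ) : ℝ :=
  (if Odd (a + b) then 1 / 2 else 1) *
    (∏ p ∈ (Icc 3 z).filter (fun p : ℕ => p.Prime ∧ (p : ℤ) ∣ a ∧ (p : ℤ) ∣ b), (p : ℝ) / (p - 1)) *
    ∏ p ∈ (Icc 3 z).filter (fun p : ℕ => p.Prime ∧ ¬ (p : ℤ) ∣ a),
      (1 - (jacobiSym (b ^ 2 - 4 * a * c) p : ℝ) / (p - 1))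

/-- `K = C(a, b, c)`: the products over the primes, in increasing order, converge to `K`. -/
def IsC (a b c : ℤ) (K : ℝ) : Prop := Filter.Tendsto (partialC a b c) Filter.atTop (nhds K)

/-- `π_f(y)`. -/
def count (a b c : ℤ) (y : ℕ) : ℕ :=
  ((Icc 1 y).filter (fun t : ℕ => (a * (t : ℤ) ^ 2 + b * t + c).toNat.Prime)).card

open Classical in
/-- CST. The product converges fast for almost all `b`, and is bounded. -/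
def S_CST (a c : ℤ) : Prop := ∀ ε : ℝ, 0 < ε → ∃ K0 : ℝ, 0 < K0 ∧ ∀ δ : ℝ, 0 < δ → ∃ z0 : ℕ, ∀ z : ℕ, z0 ≤ z →
  ∃ B0 : ℕ, ∀ B : ℕ, B0 ≤ B →
  (((Icc 1 B).filter (fun b : ℕ => Admissible a b c ∧
    ¬ ∃ K : ℝ, IsC a b c K ∧ 0 ≤ K ∧ K ≤ K0 ∧ |2 * K - Sg a b c z| ≤ δ)).card : ℝ) ≤ ε * B

open Classical in
/-- The final theorem. -/
def Final (a c : ℤ) : Prop := ∃ C1 : ℕ, ∀ ε : ℝ, 0 < ε → ∀ C2 : ℕ, ∃ B0 : ℕ, ∀ B : ℕ, B0 ≤ B → ∀ T : ℕ,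
  (B : ℝ) ≤ T * Real.log B ^ C2 → (T : ℝ) * Real.log B ^ C1 ≤ B →
  (((Icc 1 B).filter (fun b : ℕ => Admissible a b c ∧
    ¬ ∃ K : ℝ, IsC a b c K ∧
      |(count a b c T : ℝ) - 2 * K * ∑ t ∈ Icc 1 T, 1 / Real.log ((a * (t : ℤ) ^ 2 + b * t + c : ℤ) : ℝ)| ≤
        ε * (T / Real.log T))).card : ℝ) ≤ ε * B

end

end Pool.Agent.N728.QL
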