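import Pool.Agent.N728.QL.Base

set_option autoImplicit false

/-! The mean value theorem from stages A and BC. -/

namespace Pool.Agent.N728.QL

open Finset

/-- the inner sum -/
noncomputable def Gb (a c : ℤ) (z T : ℕ) (b : ℤ) : ℝ := ∑ t ∈ Icc 1 T, EE z (a * (t : ℤ) ^ 2 + b * t + c)

lemma SF_eq (a c : ℤ) (z B T : ℕ) (F : ℤ → ℝ) (hF : ∀ b, ¬ ((B : ℤ) < b ∧ b ≤ 2 * B) → F b = 0)
    (haT : 2 * a.natAbs * T ≤ B) :
    SF a c z B T F = ∑ b ∈ Ioc (B : ℤ) (2 * B), F b * Gb a c z T b := by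
  have hs : ∀ u ∈ Icc 1 T, ∑ v ∈ Icc 1 (4 * B), F ((v : ℤ) - a * u) * EE z ((u : ℤ) * v + c) =
      ∑ b ∈ Ioc (B : ℤ) (2 * B), F b * EE z (a * (u : ℤ) ^ 2 + b * u + c) := by
    intro u hu
    rw [mem_Icc] at hu
    have hau : |a * u| ≤ a.natAbs * T := by
      rw [abs_mul, ← Int.natCast_natAbs a, Nat.abs_cast]
      have : (u : ℤ) ≤ T := by exact_mod_cast hu.2
      exact mul_le_mul_of_nonneg_left this (by positivity)
    have hau2 := abs_le.1 hau
    have haTz : 2 * ((a.natAbs : ℤ) * T) ≤ B := by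
      have : 2 * a.natAbs * T = 2 * (a.natAbs * T) := by ring
      rw [this] at haT
      exact_mod_cast haT
    have h1 : ∑ v ∈ Icc 1 (4 * B), F ((v : ℤ) - a * u) * EE z ((u : ℤ) * v + c) =
        ∑ v ∈ (Icc 1 (4 * B)).filter (fun v : ℕ => (B : ℤ) < (v : ℤ) - a * u ∧ (v : ℤ) - a * u ≤ 2 * B),
          F ((v : ℤ) - a * u) * EE z ((u : ℤ) * v + c) := by
      rw [sum_filter]
      refine sum_congr rfl fun v _ => ?_
      split_ifs with h
      · rfl
      · rw [hF _ h, zero_mul]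
    rw [h1]
    apply Finset.sum_bij' (fun (v : ℕ) _ => (v : ℤ) - a * u) (fun (b : ℤ) _ => (b + a * u).toNat)
    · intro v hv
      rw [mem_filter] at hv
      rw [mem_Ioc]
      exact hv.2
    · intro b hb
      rw [mem_Ioc] at hb
      rw [mem_filter, mem_Icc]
      have hpos : 0 < b + a * u := by omega
      have e : ((b + a * u).toNat : ℤ) = b + a * u := Int.toNat_of_nonneg hpos.le
      refine ⟨⟨by omega, by omega⟩, by omega, by omega⟩
    · intro v hv
      simp
    · intro b hb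
      rw [mem_Ioc] at hb
      have hpos : 0 < b + a * u := by omega
      have e : ((b + a * u).toNat : ℤ) = b + a * u := Int.toNat_of_nonneg hpos.le
      rw [e]; ring
    · intro v hv
      congr 2
      ring
  unfold SF
  rw [sum_congr rfl hs, sum_comm]
  refine sum_congr rfl fun b _ => ?_
  unfold Gb
  rw [mul_sum]

lemma SF_add (a c : ℤ) (z B T : ℕ) (F F1 F2 : ℤ → ℝ) (h : ∀ b, F b = 2 * F1 b + F2 b) :
    SF a c z B T F = 2 * SF a c z B T F1 + SF a c z B T F2 := by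
  unfold SF
  rw [mul_sum, ← sum_add_distrib]
  refine sum_congr rfl fun u _ => ?_
  rw [mul_sum, ← sum_add_distrib]
  refine sum_congr rfl fun v _ => ?_
  rw [h]
  ring

lemma card_cell (q h : ℕ) (hq : 1 ≤ q) (k r : ℤ) :
    ((Ico (k * ((q * h : ℕ) : ℤ)) ((k + 1) * ((q * h : ℕ) : ℤ))).filter (fun b => b ≡ r [ZMOD q])).card = h := by
  have hq0 : (0 : ℤ) < q := by exact_mod_cast hq
  have h1 := Int.Ico_filter_modEq_card (k * ((q * h : ℕ) : ℤ)) ((k + 1) * ((q * h : ℕ) : ℤ)) hq0 r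
  have h2 : ⌈(((k + 1) * ((q * h : ℕ) : ℤ) - r : ℤ) : ℚ) / ((q : ℤ) : ℚ)⌉ = (k + 1) * h + ⌈((-r : ℤ) : ℚ) / ((q : ℤ) : ℚ)⌉ := by
    have e : (((k + 1) * ((q * h : ℕ) : ℤ) - r : ℤ) : ℚ) / ((q : ℤ) : ℚ) = ((-r : ℤ) : ℚ) / ((q : ℤ) : ℚ) + (((k + 1) * h : ℤ) : ℚ) := by
      have : ((q : ℤ) : ℚ) ≠ 0 := by exact_mod_cast hq0.ne'
      field_simp
      push_cast
      ring
    rw [e, Int.ceil_add_intCast]
    ring
  have h3 : ⌈((k * ((q * h : ℕ) : ℤ) - r : ℤ) : ℚ) / ((q : ℤ) : ℚ)⌉ = k * h + ⌈((-r : ℤ) : ℚ) / ((q : ℤ) : ℚ)⌉ := by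
    have e : ((k * ((q * h : ℕ) : ℤ) - r : ℤ) : ℚ) / ((q : ℤ) : ℚ) = ((-r : ℤ) : ℚ) / ((q : ℤ) : ℚ) + ((k * h : ℤ) : ℚ) := by
      have : ((q : ℤ) : ℚ) ≠ 0 := by exact_mod_cast hq0.ne'
      field_simp
      push_cast
      ring
    rw [e, Int.ceil_add_intCast]
    ring
  have h4 : ((((Ico (k * ((q * h : ℕ) : ℤ)) ((k + 1) * ((q * h : ℕ) : ℤ))).filter (fun b => b ≡ r [ZMOD q])).card : ℕ) : ℤ) = h := by
    rw [h1]
    push_cast at h2 h3 ⊢
    rw [h2, h3]
    have : (k + 1) * (h : ℤ) + ⌈(-(r : ℚ)) / (q : ℚ)⌉ - (k * h + ⌈(-(r : ℚ)) / (q : ℚ)⌉) = h := by ring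
    rw [this]
    exact max_eq_left (by positivity)
  exact_mod_cast h4


lemma EE_triv {z B : ℕ} (hB : 3 ≤ B) (hV : (VW 0 z)⁻¹ ≤ Real.log B) {n : ℤ} (hn : |n| ≤ (B : ℤ) ^ 3) :
    |EE z n| ≤ 4 * Real.log B := by
  have hBr : (3 : ℝ) ≤ B := by exact_mod_cast hB
  have hlogB : 0 ≤ Real.log B := Real.log_nonneg (by linarith)
  have h1 : |lp n| ≤ 3 * Real.log B := by
    unfold lp
    split_ifs with hp
    · have hn1 : (1 : ℤ) ≤ n := by
        by_contra hcon
        have : n.toNat = 0 := by omega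
        rw [this] at hp
        exact Nat.not_prime_zero hp
      have hnr : (1 : ℝ) ≤ n := by exact_mod_cast hn1
      rw [abs_of_nonneg (Real.log_nonneg hnr)]
      have h2 : (n : ℝ) ≤ (B : ℝ) ^ 3 := by
        have := (le_abs_self n).trans hn
        exact_mod_cast this
      have h3 := Real.log_le_log (by linarith) h2
      rw [Real.log_pow] at h3
      exact_mod_cast h3
    · rw [abs_zero]; positivity
  unfold EE
  have h2 : |lz z n| ≤ Real.log B := by
    rw [abs_of_nonneg (lz_nonneg z n)]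
    exact (lz_le z n).trans hV
  calc |lp n - lz z n| ≤ |lp n| + |lz z n| := abs_sub _ _
    _ ≤ 4 * Real.log B := by linarith

lemma cube_bd {B : ℤ} (h : 3 ≤ B) : 3 * B * B + (B - 3) ≤ B ^ 3 := by
  have h1 : 0 ≤ (B - 3) * (B ^ 2 - 1) := mul_nonneg (by omega) (by nlinarith)
  have h2 : B ^ 3 - (3 * B * B + (B - 3)) = (B - 3) * (B ^ 2 - 1) := by ring
  omega

/-- averages on the cells -/
noncomputable def av (F : ℤ → ℝ) (q h : ℕ) (b : ℤ) : ℝ :=
  (∑ b' ∈ (Ico ((b / ((q * h : ℕ) : ℤ)) * ((q * h : ℕ) : ℤ)) ((b / ((q * h : ℕ) : ℤ) + 1) * ((q * h : ℕ) : ℤ))).filter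
    (fun b' => b' ≡ b [ZMOD q]), F b') / h

lemma mem_cell {H : ℤ} (hH : 0 < H) (b k : ℤ) : b ∈ Ico (k * H) ((k + 1) * H) ↔ b / H = k := by
  rw [mem_Ico]
  constructor
  · rintro ⟨h1, h2⟩
    apply le_antisymm
    · exact Int.lt_add_one_iff.1 ((Int.ediv_lt_iff_lt_mul hH).2 h2)
    · exact (Int.le_ediv_iff_mul_le hH).2 h1
  · intro h
    constructor
    · exact (Int.le_ediv_iff_mul_le hH).1 h.ge
    · apply (Int.ediv_lt_iff_lt_mul hH).1
      omega

lemma av_bd {F : ℤ → ℝ} (hF : ∀ b, |F b| ≤ 1) {q h : ℕ} (hq : 1 ≤ q) (hh : 1 ≤ h) (b : ℤ) : |av F q h b| ≤ 1 := by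
  unfold av
  have hhr : (0 : ℝ) < h := by exact_mod_cast hh
  rw [abs_div, abs_of_pos hhr, div_le_one hhr]
  refine (abs_sum_le_sum_abs _ _).trans ?_
  refine (sum_le_sum fun b' _ => hF b').trans ?_
  rw [sum_const, card_cell q h hq, nsmul_eq_mul, mul_one]

lemma av_const {F : ℤ → ℝ} {q h : ℕ} : CellConst (av F q h) q (q * h) := by
  intro b b' hb hk
  unfold av
  rw [hk]
  congr 2
  ext x
  rw [mem_filter, mem_filter]
  constructor
  · rintro ⟨h1, h2⟩
    exact ⟨h1, h2.trans hb⟩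
  · rintro ⟨h1, h2⟩
    exact ⟨h1, h2.trans hb.symm⟩

lemma av_zero {F : ℤ → ℝ} {q h : ℕ} (hq : 1 ≤ q) (hh : 1 ≤ h) :
    ZeroMean (fun b => (F b - av F q h b) / 2) q (q * h) := by
  intro r k
  have hH : (0 : ℤ) < ((q * h : ℕ) : ℤ) := by
    have : 0 < q * h := Nat.mul_pos hq hh
    exact_mod_cast this
  rw [← sum_div, sum_sub_distrib]
  have h1 : ∑ b ∈ (Ico (k * ((q * h : ℕ) : ℤ)) ((k + 1) * ((q * h : ℕ) : ℤ))).filter (fun b => b ≡ r [ZMOD q]),
      av F q h b = ∑ b ∈ (Ico (k * ((q * h : ℕ) : ℤ)) ((k + 1) * ((q * h : ℕ) : ℤ))).filter (fun b => b ≡ r [ZMOD q]),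
      (∑ b' ∈ (Ico (k * ((q * h : ℕ) : ℤ)) ((k + 1) * ((q * h : ℕ) : ℤ))).filter (fun b' => b' ≡ r [ZMOD q]), F b') / h := by
    refine sum_congr rfl fun b hb => ?_
    rw [mem_filter, mem_cell hH] at hb
    unfold av
    rw [hb.1]
    congr 2
    ext x
    rw [mem_filter, mem_filter]
    constructor
    · rintro ⟨h1, h2⟩
      exact ⟨h1, h2.trans hb.2⟩
    · rintro ⟨h1, h2⟩
      exact ⟨h1, h2.trans hb.2.symm⟩
  rw [h1, sum_const, card_cell q h hq, nsmul_eq_mul]
  have hhr : (h : ℝ) ≠ 0 := by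
    have : 0 < h := hh
    exact_mod_cast this.ne'
  field_simp
  ring

/-- **The mean value theorem.** -/
theorem mc (hA : ∀ a c : ℤ, a ≠ 0 → c ≠ 0 → S_A a c) (hBC : ∀ a c : ℤ, a ≠ 0 → c ≠ 0 → S_BC a c) (hMER : S_MER)
    (a c : ℤ) (ha : a ≠ 0) (hc : c ≠ 0) : S_MC a c := by
  classical
  obtain ⟨C1, K, hK, hbc⟩ := hBC a c ha hc
  obtain ⟨Cm, hCm1, -, hCm⟩ := hMER
  have hlim : Filter.Tendsto (fun N : ℕ => Real.log (N : ℝ)) Filter.atTop Filter.atTop :=
    Real.tendsto_log_atTop.comp tendsto_natCast_atTop_atTop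
  refine ⟨C1 + 2, fun ε hε => ?_⟩
  obtain ⟨zA, hzA⟩ := hA a c ha hc (ε / 8) (by positivity)
  -- K V⁻¹ / z small
  have hsm : ∃ zs : ℕ, ∀ z : ℕ, zs ≤ z → K * Cm * Real.log z / z ≤ ε / 8 := by
    have h1 : Filter.Tendsto (fun x : ℝ => Real.log x / x) Filter.atTop (nhds 0) :=
      Real.isLittleO_log_id_atTop.tendsto_div_nhds_zero
    have h2 : Filter.Tendsto (fun N : ℕ => K * Cm * (Real.log (N : ℝ) / N)) Filter.atTop (nhds (K * Cm * 0)) :=
      (h1.comp tendsto_natCast_atTop_atTop).const_mul _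
    rw [mul_zero] at h2
    have h3 := (h2.eventually (gt_mem_nhds (show (0 : ℝ) < ε / 8 by positivity)))
    obtain ⟨zs, hzs⟩ := Filter.eventually_atTop.1 h3
    refine ⟨zs, fun z hz => ?_⟩
    have := (hzs z hz).le
    rw [mul_div_assoc]
    exact this
  obtain ⟨zs, hzs⟩ := hsm
  refine ⟨max (max zA zs) (max c.natAbs 2), fun z hz C2 => ?_⟩
  have hz1 : zA ≤ z := ((le_max_left _ _).trans (le_max_left _ _)).trans hz
  have hz2 : zs ≤ z := ((le_max_right _ _).trans (le_max_left _ _)).trans hz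
  have hz3 : c.natAbs ≤ z := ((le_max_left _ _).trans (le_max_right _ _)).trans hz
  have hz4 : 2 ≤ z := ((le_max_right _ _).trans (le_max_right _ _)).trans hz
  obtain ⟨q, hq1, hPq, hqz, η, hη, BA, hBA⟩ := hzA z hz1
  obtain ⟨BC, hBCB⟩ := hbc q z C2 (ε / 8) (min η 1 / 2) hq1 hz4 hz3 (by positivity) (by positivity) hPq hqz
  have hVz : (VW 0 z)⁻¹ ≤ Cm * Real.log z := (hCm z hz4).2
  have hKz : K * (VW 0 z)⁻¹ / z ≤ ε / 8 := by
    refine le_trans ?_ (hzs z hz2)
    apply div_le_div_of_nonneg_right _ (by positivity)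
    calc K * (VW 0 z)⁻¹ ≤ K * (Cm * Real.log z) := mul_le_mul_of_nonneg_left hVz hK.le
      _ = K * Cm * Real.log z := by ring
  -- largeness of B
  have hpow : ∃ Bp : ℕ, ∀ B : ℕ, Bp ≤ B → Real.log B ^ (2 * C2) * (4 * q / min η 1) ^ 2 ≤ B := by
    have h1 : Filter.Tendsto (fun x : ℝ => Real.log x ^ (2 * C2) / x) Filter.atTop (nhds 0) :=
      Real.isLittleO_pow_log_id_atTop.tendsto_div_nhds_zero
    have hη1 : 0 < min η 1 := lt_min hη one_pos
    have hD : 0 < (4 * q / min η 1) ^ 2 + 1 := by positivity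
    have h3 := ((h1.comp tendsto_natCast_atTop_atTop).eventually (gt_mem_nhds (show (0 : ℝ) < 1 / ((4 * q / min η 1) ^ 2 + 1) by positivity)))
    obtain ⟨Bp, hBp⟩ := Filter.eventually_atTop.1 h3
    refine ⟨max Bp 1, fun B hB => ?_⟩
    have h4 := (hBp B ((le_max_left _ _).trans hB)).le
    have hB1 : (0 : ℝ) < B := by exact_mod_cast (le_max_right _ _).trans hB
    simp only [Function.comp] at h4
    rw [div_le_div_iff₀ hB1 hD] at h4
    have h5 : 0 ≤ Real.log (B : ℝ) ^ (2 * C2) := by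
      rw [pow_mul]
      positivity
    nlinarith
  obtain ⟨Bp, hBp⟩ := hpow
  obtain ⟨Bl, hBl⟩ := Filter.eventually_atTop.1 (hlim.eventually_ge_atTop (max (max 1 (2 * a.natAbs)) (max ((VW 0 z)⁻¹) (64 / ε))))
  refine ⟨max (max BA BC) (max (max Bp Bl) (max 3 (a.natAbs + c.natAbs + 3))), fun B hB T hT1 hT2 => ?_⟩
  have b1 : BA ≤ B := ((le_max_left _ _).trans (le_max_left _ _)).trans hB
  have b2 : BC ≤ B := ((le_max_right _ _).trans (le_max_left _ _)).trans hB
  have b3 : Bp ≤ B := (((le_max_left _ _).trans (le_max_left _ _)).trans (le_max_right _ _)).trans hB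
  have b4 : Bl ≤ B := (((le_max_right _ _).trans (le_max_left _ _)).trans (le_max_right _ _)).trans hB
  have b5 : 3 ≤ B := (((le_max_left _ _).trans (le_max_right _ _)).trans (le_max_right _ _)).trans hB
  have b6 : a.natAbs + c.natAbs + 3 ≤ B := (((le_max_right _ _).trans (le_max_right _ _)).trans (le_max_right _ _)).trans hB
  have hBr : (3 : ℝ) ≤ B := by exact_mod_cast b5
  have hB0 : (0 : ℝ) < B := by linarith
  have hl := hBl B b4
  obtain ⟨L, hL⟩ : ∃ L, L = Real.log (B : ℝ) := ⟨_, rfl⟩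
  rw [← hL] at hl
  have hl1 : 1 ≤ L := ((le_max_left _ _).trans (le_max_left _ _)).trans hl
  have hl2 : 2 * (a.natAbs : ℝ) ≤ L := ((le_max_right _ _).trans (le_max_left _ _)).trans hl
  have hl3 : (VW 0 z)⁻¹ ≤ L := ((le_max_left _ _).trans (le_max_right _ _)).trans hl
  have hl4 : 64 / ε ≤ L := ((le_max_right _ _).trans (le_max_right _ _)).trans hl
  have hη1 : 0 < min η 1 := lt_min hη one_pos
  rw [← hL] at hT1 hT2
  have hT2' : (T : ℝ) * L ^ 2 ≤ B := by
    refine le_trans ?_ hT2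
    apply mul_le_mul_of_nonneg_left _ (Nat.cast_nonneg T)
    exact pow_le_pow_right₀ hl1 (by omega)
  have hTL : (T : ℝ) * L ≤ B := by
    refine le_trans ?_ hT2'
    apply mul_le_mul_of_nonneg_left _ (Nat.cast_nonneg T)
    exact le_self_pow₀ hl1 (by norm_num)
  have hT0 : (0 : ℝ) < T := by
    by_contra hcon
    have : (T : ℝ) = 0 := le_antisymm (not_lt.1 hcon) (Nat.cast_nonneg T)
    rw [this, zero_mul] at hT1
    linarith
  have hTB : (T : ℝ) ≤ B := by
    refine le_trans ?_ hTL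
    nlinarith
  have haT : 2 * a.natAbs * T ≤ B := by
    have h1 : (2 * (a.natAbs : ℝ)) * T ≤ B := by
      calc (2 * (a.natAbs : ℝ)) * T ≤ L * T := by gcongr
        _ = T * L := by ring
        _ ≤ B := hTL
    exact_mod_cast h1
  have hLp : 0 < L ^ C2 := by positivity
  -- T is large
  have hTbig : 4 * (q : ℝ) / min η 1 ≤ T := by
    have h1 := hBp B b3
    rw [← hL] at h1
    have h2 : (4 * (q : ℝ) / min η 1 * L ^ C2) ^ 2 ≤ B := by
      calc (4 * (q : ℝ) / min η 1 * L ^ C2) ^ 2 = L ^ (2 * C2) * (4 * q / min η 1) ^ 2 := by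
            rw [mul_pow, ← pow_mul]; ring
        _ ≤ (B : ℝ) := h1
    have h3 : (4 * (q : ℝ) / min η 1 * L ^ C2) ≤ B := by
      by_contra hcon
      push Not at hcon
      have h4 : (B : ℝ) * B < (4 * (q : ℝ) / min η 1 * L ^ C2) ^ 2 := by
        rw [sq]
        exact mul_lt_mul'' hcon hcon hB0.le hB0.le
      nlinarith
    have h4 : (4 * (q : ℝ) / min η 1) * L ^ C2 ≤ T * L ^ C2 := h3.trans hT1
    exact le_of_mul_le_mul_right h4 hLp
  have hBT2 : B ≤ T ^ 2 := by
    have h1 := hBp B b3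
    rw [← hL] at h1
    have hq4 : (1 : ℝ) ≤ 4 * q / min η 1 := by
      rw [le_div_iff₀ hη1]
      have h2 : min η 1 ≤ 1 := min_le_right _ _
      have h3 : (1 : ℝ) ≤ q := by exact_mod_cast hq1
      linarith
    have h2 : L ^ (2 * C2) ≤ B := by
      refine le_trans ?_ h1
      apply le_mul_of_one_le_right (by positivity)
      exact one_le_pow₀ hq4
    have h3 : (B : ℝ) * B ≤ B * (T : ℝ) ^ 2 := by
      calc (B : ℝ) * B ≤ (T * L ^ C2) * (T * L ^ C2) := by gcongr
        _ = L ^ (2 * C2) * (T : ℝ) ^ 2 := by ring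
        _ ≤ B * (T : ℝ) ^ 2 := by gcongr
    have h4 := le_of_mul_le_mul_left h3 hB0
    exact_mod_cast h4
  -- the cells
  obtain ⟨h, hh⟩ : ∃ h, h = ⌊min η 1 * T / q⌋₊ := ⟨_, rfl⟩
  have hqr : (0 : ℝ) < q := by exact_mod_cast hq1
  have hh1 : (h : ℝ) ≤ min η 1 * T / q := by rw [hh]; exact Nat.floor_le (by positivity)
  have hh2 : min η 1 * T / q < h + 1 := by rw [hh]; exact Nat.lt_floor_add_one _
  have h4 : 4 ≤ min η 1 * T / q := by
    rw [le_div_iff₀ hqr]
    rw [div_le_iff₀ hη1] at hTbig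
    linarith
  have hhpos : 1 ≤ h := by
    have : (3 : ℝ) < h := by linarith
    exact_mod_cast (by linarith : (1 : ℝ) ≤ h)
  obtain ⟨H, hH⟩ : ∃ H, H = q * h := ⟨_, rfl⟩
  have hHr : (H : ℝ) = q * h := by rw [hH]; push_cast; ring
  have hH1 : (H : ℝ) ≤ min η 1 * T := by
    rw [hHr]
    rw [le_div_iff₀ hqr] at hh1
    linarith
  have hH2 : min η 1 / 2 * T ≤ H := by
    rw [hHr]
    have h5 : min η 1 * T / q / 2 ≤ h := by linarith
    rw [div_div, div_le_iff₀ (by positivity)] at h5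
    linarith
  have hHT : (H : ℝ) ≤ T := by
    refine hH1.trans ?_
    have : min η 1 ≤ 1 := min_le_right _ _
    nlinarith
  have hHT' : H ≤ T := by exact_mod_cast hHT
  have hHη : (H : ℝ) ≤ η * T := by
    refine hH1.trans ?_
    apply mul_le_mul_of_nonneg_right (min_le_left _ _) hT0.le
  have hHpos : 1 ≤ H := by rw [hH]; exact Nat.mul_pos hq1 hhpos
  have hHz : (0 : ℤ) < (H : ℤ) := by exact_mod_cast hHpos
  -- the sign function
  set full : ℤ → Prop := fun b => (B : ℤ) < b / H * H ∧ (b / H + 1) * H ≤ 2 * B + 1 with hfull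
  set F : ℤ → ℝ := fun b => if full b then (if 0 ≤ Gb a c z T b then 1 else -1) else 0 with hF
  have hF1 : ∀ b, |F b| ≤ 1 := by
    intro b
    simp only [hF]
    split_ifs <;> norm_num
  have hfb : ∀ b, full b → (B : ℤ) < b ∧ b ≤ 2 * B := by
    intro b hb
    simp only [hfull] at hb
    have h5 := (mem_cell hHz b (b / H)).2 rfl
    rw [mem_Ico] at h5
    constructor
    · exact lt_of_lt_of_le hb.1 h5.1
    · have := lt_of_lt_of_le h5.2 hb.2
      omega
  have hFa : Adm F B := by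
    refine ⟨hF1, fun b hb => ?_⟩
    simp only [hF]
    rw [if_neg]
    intro hcon
    exact hb (hfb b hcon)
  have hfc : ∀ b b' : ℤ, b' / H = b / H → (full b' ↔ full b) := by
    intro b b' hbb
    simp only [hfull]
    rw [hbb]
  have havA : Adm (av F q h) B := by
    refine ⟨av_bd hF1 hq1 hhpos, fun b hb => ?_⟩
    unfold av
    rw [div_eq_zero_iff]
    left
    apply sum_eq_zero
    intro b' hb'
    rw [mem_filter, ← hH, mem_cell hHz] at hb'
    have hnf : ¬ full b := fun hcon => hb (hfb b hcon)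
    simp only [hF]
    rw [if_neg]
    rw [hfc b b' hb'.1]
    exact hnf
  have h0A : Adm (fun b => (F b - av F q h b) / 2) B := by
    refine ⟨fun b => ?_, fun b hb => ?_⟩
    · rw [abs_div, abs_of_pos (by norm_num : (0 : ℝ) < 2), div_le_one (by norm_num)]
      have h5 := abs_sub (F b) (av F q h b)
      have h6 := hF1 b
      have h7 := havA.1 b
      linarith
    · simp only
      rw [hFa.2 b hb, havA.2 b hb]
      norm_num
  -- the two stages
  have sA := hBA B b1 T H (fun b => (F b - av F q h b) / 2) hBT2 haT hHpos hHη h0A (by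
    rw [hH]
    exact av_zero hq1 hhpos)
  have sB := hBCB B b2 T H (av F q h) (by rw [← hL]; exact hT1) (by
    rw [← hL]
    refine le_trans ?_ hT2
    apply mul_le_mul_of_nonneg_left _ hT0.le
    exact pow_le_pow_right₀ hl1 (by omega)) (by rw [hH]; exact dvd_mul_right q h) hH2 hHT' havA (by
    rw [hH]
    exact av_const)
  have eF := SF_add a c z B T F (fun b => (F b - av F q h b) / 2) (av F q h) (fun b => by ring)
  have eS := SF_eq a c z B T F hFa.2 haT
  -- the absolute values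
  have hBTpos : 0 < (B : ℝ) * T := by positivity
  have hGtriv : ∀ b ∈ Ioc (B : ℤ) (2 * B), |Gb a c z T b| ≤ T * (4 * L) := by
    intro b hb
    rw [mem_Ioc] at hb
    unfold Gb
    refine (abs_sum_le_sum_abs _ _).trans ?_
    calc ∑ t ∈ Icc 1 T, |EE z (a * (t : ℤ) ^ 2 + b * t + c)| ≤ ∑ t ∈ Icc 1 T, 4 * L := by
          apply sum_le_sum
          intro t ht
          rw [mem_Icc] at ht
          rw [hL]
          apply EE_triv b5 (by rw [← hL]; exact hl3)
          have ht1 : (t : ℤ) ≤ T := by exact_mod_cast ht.2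
          have ht0 : (1 : ℤ) ≤ t := by exact_mod_cast ht.1
          have hTB' : (T : ℤ) ≤ B := by exact_mod_cast hTB
          have haz : 2 * (|a| * T) ≤ (B : ℤ) := by
            rw [← Int.natCast_natAbs a]
            have : 2 * a.natAbs * T = 2 * (a.natAbs * T) := by ring
            rw [this] at haT
            exact_mod_cast haT
          have hcz : |c| + 3 ≤ (B : ℤ) := by
            rw [← Int.natCast_natAbs c]
            omega
          have hbz : |b| ≤ 2 * (B : ℤ) := by rw [abs_le]; constructor <;> omega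
          have hB3 : (3 : ℤ) ≤ B := by exact_mod_cast b5
          have hat : |a * (t : ℤ)| ≤ B := by
            rw [abs_mul, abs_of_nonneg (by omega : (0 : ℤ) ≤ t)]
            have : |a| * (t : ℤ) ≤ |a| * T := mul_le_mul_of_nonneg_left ht1 (abs_nonneg a)
            omega
          have e : a * (t : ℤ) ^ 2 + b * t + c = (a * t + b) * t + c := by ring
          rw [e]
          have h5 : |a * (t : ℤ) + b| ≤ 3 * B := (abs_add_le _ _).trans (by omega)
          have h6 : |(a * (t : ℤ) + b) * t| ≤ 3 * B * B := by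
            rw [abs_mul, abs_of_nonneg (by omega : (0 : ℤ) ≤ t)]
            exact mul_le_mul h5 (ht1.trans hTB') (by omega) (by omega)
          calc |(a * (t : ℤ) + b) * t + c| ≤ |(a * (t : ℤ) + b) * t| + |c| := abs_add_le _ _
            _ ≤ 3 * B * B + (B - 3) := by omega
            _ ≤ (B : ℤ) ^ 3 := by
              exact cube_bd hB3
      _ = T * (4 * L) := by rw [sum_const, Nat.card_Icc, nsmul_eq_mul, Nat.add_sub_cancel]
  have habs : ∑ b ∈ Ioc (B : ℤ) (2 * B), |Gb a c z T b| ≤ SF a c z B T F + 2 * H * (T * (4 * L)) := by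
    rw [eS]
    have h5 : ∀ b ∈ Ioc (B : ℤ) (2 * B), |Gb a c z T b| ≤ F b * Gb a c z T b +
        (if full b then 0 else T * (4 * L)) := by
      intro b hb
      by_cases hf : full b
      · rw [if_pos hf, add_zero]
        simp only [hF]
        rw [if_pos hf]
        split_ifs with hg
        · rw [abs_of_nonneg hg, one_mul]
        · rw [abs_of_neg (not_le.1 hg), neg_one_mul]
      · rw [if_neg hf]
        have : F b = 0 := by simp only [hF]; rw [if_neg hf]
        rw [this, zero_mul, zero_add]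
        exact hGtriv b hb
    refine (sum_le_sum h5).trans ?_
    rw [sum_add_distrib]
    apply add_le_add le_rfl
    rw [← sum_filter_add_sum_filter_not (Ioc (B : ℤ) (2 * B)) full]
    rw [sum_congr rfl (g := fun _ => (0 : ℝ)) (fun b hb => if_pos (mem_filter.1 hb).2), sum_const_zero, zero_add]
    rw [sum_congr rfl (g := fun _ => (T : ℝ) * (4 * L)) (fun b hb => if_neg (mem_filter.1 hb).2), sum_const, nsmul_eq_mul]
    apply mul_le_mul_of_nonneg_right _ (by positivity)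
    have h6 : (Ioc (B : ℤ) (2 * B)).filter (fun b => ¬ full b) ⊆ Ioc (B : ℤ) (B + H) ∪ Ioc (2 * B - H : ℤ) (2 * B) := by
      intro b hb
      rw [mem_filter, mem_Ioc] at hb
      obtain ⟨⟨h7, h8⟩, h9⟩ := hb
      simp only [hfull, not_and_or, not_lt, not_le] at h9
      have h10 := (mem_cell hHz b (b / H)).2 rfl
      rw [mem_Ico] at h10
      rw [mem_union, mem_Ioc, mem_Ioc]
      have h12 : (b / (H : ℤ) + 1) * H = b / H * H + H := by ring
      rcases h9 with h11 | h11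
      · left
        omega
      · right
        omega
    have h7 : (((Ioc (B : ℤ) (2 * B)).filter (fun b => ¬ full b)).card : ℝ) ≤ ((Ioc (B : ℤ) (B + H) ∪ Ioc (2 * B - H : ℤ) (2 * B)).card : ℝ) := by
      exact_mod_cast card_le_card h6
    refine h7.trans ?_
    have h8 : (Ioc (B : ℤ) (B + H) ∪ Ioc (2 * B - H : ℤ) (2 * B)).card ≤ 2 * H := by
      refine (card_union_le _ _).trans ?_
      rw [Int.card_Ioc, Int.card_Ioc]
      omega
    exact_mod_cast h8
  have hsum : ∑ b ∈ Ioc B (2 * B), |∑ t ∈ Icc 1 T, EE z (a * (t : ℤ) ^ 2 + (b : ℤ) * t + c)| =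
      ∑ b ∈ Ioc (B : ℤ) (2 * B), |Gb a c z T b| := by
    apply Finset.sum_bij (fun (b : ℕ) _ => (b : ℤ))
    · intro b hb
      rw [mem_Ioc] at hb ⊢
      omega
    · intro x _ x' _ hx
      exact_mod_cast hx
    · intro b hb
      rw [mem_Ioc] at hb
      exact ⟨b.toNat, by rw [mem_Ioc]; omega, by omega⟩
    · intro b _
      rfl
  rw [hsum]
  refine habs.trans ?_
  have e1 : SF a c z B T F ≤ 2 * (ε / 8 * (B * T)) + (ε / 8 + ε / 8) * (B * T) := by
    rw [eF]
    have h5 := (le_abs_self _).trans sA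
    have h6 := (le_abs_self _).trans sB
    have h7 : (K * (VW 0 z)⁻¹ / z + ε / 8) * ((B : ℝ) * T) ≤ (ε / 8 + ε / 8) * (B * T) := by
      apply mul_le_mul_of_nonneg_right _ hBTpos.le
      linarith
    linarith
  have e2 : 2 * (H : ℝ) * (T * (4 * L)) ≤ ε / 8 * (B * T) := by
    have h5 : 64 ≤ ε * L := by
      rw [div_le_iff₀ hε] at hl4
      linarith
    have h6 : (T : ℝ) * L * 64 ≤ (T * L) * (ε * L) := by
      apply mul_le_mul_of_nonneg_left h5 (by positivity)
    have h7 : (T * L) * (ε * L) ≤ ε * B := by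
      calc ((T : ℝ) * L) * (ε * L) = ε * (T * L ^ 2) := by ring
        _ ≤ ε * B := by gcongr
    calc 2 * (H : ℝ) * (T * (4 * L)) ≤ 2 * T * (T * (4 * L)) := by gcongr
      _ = (T * L * 64) * T / 8 := by ring
      _ ≤ (ε * B) * T / 8 := by
          apply div_le_div_of_nonneg_right _ (by norm_num)
          apply mul_le_mul_of_nonneg_right _ hT0.le
          exact h6.trans h7
      _ = _ := by ring
  have : ε * ((B : ℝ) * T) = 2 * (ε / 8 * (B * T)) + (ε / 8 + ε / 8) * (B * T) + ε / 8 * (B * T) + 3 * ε / 8 * (B * T) := by ring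
  rw [this]
  have : 0 ≤ 3 * ε / 8 * ((B : ℝ) * T) := by positivity
  linarith

end Pool.Agent.N728.QL
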