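import Pool.Agent.N728.QL.Def

set_option autoImplicit false

/-! Basic facts. -/

namespace Pool.Agent.N728.QL

open Finset

lemma VW_pos (w y : ℕ) : 0 < VW w y := by
  unfold VW
  apply Finset.prod_pos
  intro p hp
  have h2 : 2 ≤ p := (mem_filter.1 hp).2.two_le
  have : (2 : ℝ) ≤ p := by exact_mod_cast h2
  have : 1 / (p : ℝ) ≤ 1 / 2 := by
    apply one_div_le_one_div_of_le <;> linarith
  linarith

lemma VW_le_one (w y : ℕ) : VW w y ≤ 1 := by
  unfold VW
  apply Finset.prod_le_one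
  · intro p hp
    have h2 : 2 ≤ p := (mem_filter.1 hp).2.two_le
    have : (2 : ℝ) ≤ p := by exact_mod_cast h2
    have : 1 / (p : ℝ) ≤ 1 / 2 := by
      apply one_div_le_one_div_of_le <;> linarith
    linarith
  · intro p hp
    have : 0 ≤ 1 / (p : ℝ) := by positivity
    linarith

lemma rg_nonneg (w y : ℕ) (n : ℤ) : 0 ≤ rg w y n := by unfold rg; split_ifs <;> norm_num
lemma rg_le_one (w y : ℕ) (n : ℤ) : rg w y n ≤ 1 := by unfold rg; split_ifs <;> norm_num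
lemma lz_nonneg (z : ℕ) (n : ℤ) : 0 ≤ lz z n := by
  unfold lz
  split_ifs
  · exact inv_nonneg.2 (VW_pos 0 z).le
  · exact le_refl _
lemma lz_le (z : ℕ) (n : ℤ) : lz z n ≤ (VW 0 z)⁻¹ := by
  unfold lz
  split_ifs
  · exact le_refl _
  · exact inv_nonneg.2 (VW_pos 0 z).le

lemma PP_pos (w y : ℕ) : 0 < PP w y := by
  unfold PP
  exact Finset.prod_pos fun p hp => (mem_filter.1 hp).2.pos

lemma PP_squarefree (w y : ℕ) : Squarefree (PP w y) := by
  unfold PP
  refine Finset.squarefree_prod_of_pairwise_isCoprime (fun p hp q hq hpq ↦ ?_) ?_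
  · show IsRelPrime p q
    rw [← Nat.coprime_iff_isRelPrime]
    exact (Nat.coprime_primes (mem_filter.1 hp).2 (mem_filter.1 hq).2).2 hpq
  · intro p hp
    exact (mem_filter.1 hp).2.prime.squarefree

lemma dvd_PP {w y p : ℕ} (hp : p.Prime) (h : p ∣ PP w y) : w < p ∧ p ≤ y := by
  unfold PP at h
  obtain ⟨q, hq, hpq⟩ := (Prime.dvd_finsetProd_iff hp.prime _).1 h
  have h1 := mem_filter.1 hq
  rw [mem_Ioc] at h1
  have : p = q := (Nat.prime_dvd_prime_iff_eq hp h1.2).1 hpq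
  subst this
  exact h1.1

lemma prime_dvd_PP {w y p : ℕ} (hp : p.Prime) (h1 : w < p) (h2 : p ≤ y) : p ∣ PP w y := by
  unfold PP
  exact Finset.dvd_prod_of_mem _ (mem_filter.2 ⟨mem_Ioc.2 ⟨h1, h2⟩, hp⟩)

lemma sum_Icc_int (X : ℕ) (h : ℤ → ℝ) : ∑ x ∈ Icc (1 : ℤ) X, h x = ∑ x ∈ Icc 1 X, h (x : ℤ) := by
  symm
  apply Finset.sum_bij (fun (x : ℕ) _ => (x : ℤ))
  · intro x hx
    rw [mem_Icc] at hx ⊢
    omega
  · intro x _ x' _ h
    exact_mod_cast h
  · intro z hz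
    rw [mem_Icc] at hz
    exact ⟨z.toNat, by rw [mem_Icc]; omega, by omega⟩
  · intro x _
    rfl

end Pool.Agent.N728.QL
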