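import Pool.Agent.N728.QL.Base

set_option autoImplicit false

/-! Common part of the assemblies. -/

namespace Pool.Agent.N728.QL

open Finset

noncomputable section

/-- the majorant -/
def NN (c : ℤ) (z z1 : ℕ) (n : ℕ) : ℝ := lz z1 ((n : ℤ) + c) + lz z ((n : ℤ) + c)

lemma NN_nonneg (c : ℤ) (z z1 n : ℕ) : 0 ≤ NN c z z1 n := add_nonneg (lz_nonneg _ _) (lz_nonneg _ _)

/-- the pointwise bound -/
lemma EE_bd (hMER : S_MER) : ∃ κ : ℝ, 1 ≤ κ ∧ ∀ (c : ℤ) (k z : ℕ), 2 ≤ k → ∃ B0 : ℕ, ∀ B : ℕ, B0 ≤ B →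
    ∀ z1 : ℕ, z1 ^ k ≤ B → B < (z1 + 1) ^ k → 2 ≤ z1 ∧ ∀ n : ℕ, B ≤ 2 * n → n ≤ 4 * B ^ 2 →
      |EE z ((n : ℤ) + c)| ≤ κ * k * NN c z z1 n := by
  obtain ⟨C, hC1, -, hC⟩ := hMER
  refine ⟨6 * C, by linarith, ?_⟩
  intro c k z hk
  refine ⟨max (3 ^ k) (max (16 + 4 * (c.natAbs + 1) ^ 2) 0), ?_⟩
  intro B hB z1 hz1 hz1'
  have hB3 : 3 ^ k ≤ B := (le_max_left _ _).trans hB
  have hBc : 16 + 4 * (c.natAbs + 1) ^ 2 ≤ B := ((le_max_left _ _).trans (le_max_right _ _)).trans hB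
  have hz13 : 3 ≤ z1 := by
    by_contra hcon
    have : (z1 + 1) ^ k ≤ 3 ^ k := Nat.pow_le_pow_left (by omega) k
    omega
  refine ⟨by omega, ?_⟩
  intro n hn1 hn2
  have hz1r : (3 : ℝ) ≤ z1 := by exact_mod_cast hz13
  have hB1 : (1 : ℝ) < B := by exact_mod_cast (by omega : 1 < B)
  have hlogB : 0 < Real.log B := Real.log_pos hB1
  have hkr : (2 : ℝ) ≤ k := by exact_mod_cast hk
  have hlogz : Real.log B ≤ 2 * k * Real.log z1 := by
    have h1 : (B : ℝ) ≤ ((z1 : ℝ) ^ 2) ^ k := by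
      have h2 : B ≤ (z1 ^ 2) ^ k := by
        refine hz1'.le.trans (Nat.pow_le_pow_left ?_ k)
        nlinarith
      exact_mod_cast h2
    have h3 := Real.log_le_log (by linarith) h1
    rw [← pow_mul, Real.log_pow] at h3
    push_cast at h3
    linarith
  have hV := (hC z1 (by omega)).1
  have hN0 := NN_nonneg c z z1 n
  have hlz := lz_nonneg z ((n : ℤ) + c)
  have hlz1 := lz_nonneg z1 ((n : ℤ) + c)
  have hlp : |lp ((n : ℤ) + c)| ≤ 6 * C * k * lz z1 ((n : ℤ) + c) := by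
    unfold lp
    split_ifs with hp
    · set m : ℤ := (n : ℤ) + c with hm
      have hm0 : 0 < m := by
        by_contra hcon
        have : m.toNat = 0 := by omega
        rw [this] at hp
        exact Nat.not_prime_zero hp
      have hmn : (m.toNat : ℤ) = m := by omega
      have hz1B : z1 ^ 2 ≤ B := le_trans (Nat.pow_le_pow_right (by omega) hk) hz1
      have hcs : (c.natAbs : ℤ) = |c| := Int.natCast_natAbs c
      have hc1 : -(c.natAbs : ℤ) ≤ c ∧ c ≤ c.natAbs := by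
        rw [hcs]
        exact ⟨neg_abs_le c, le_abs_self c⟩
      -- m > z1
      have hmz : (z1 : ℤ) < m := by
        have h1 : 4 * z1 ≤ z1 ^ 2 + 4 := by nlinarith [sq_nonneg ((z1 : ℤ) - 2), Nat.sub_add_cancel hz13]
        have h2 : 4 * (c.natAbs + 1) ≤ (c.natAbs + 1) ^ 2 + 4 := by
          have := sq_nonneg ((c.natAbs : ℤ) - 1)
          zify
          nlinarith
        have h3 : 2 * n ≥ B := hn1
        have h4 : 4 * (z1 + c.natAbs) < 4 * n := by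
          have h5 : 4 * z1 + 4 * (c.natAbs + 1) ≤ z1 ^ 2 + 4 + ((c.natAbs + 1) ^ 2 + 4) := by omega
          have h6 : (c.natAbs + 1) ^ 2 * 4 + 16 ≤ B := by omega
          omega
        omega
      have hrg : Rg 0 z1 m := by
        intro p hp1 _ hpz hdvd
        have h1 : p ∣ m.toNat := by
          rw [← hmn] at hdvd
          exact_mod_cast hdvd
        have h2 := (Nat.prime_dvd_prime_iff_eq hp1 hp).1 h1
        omega
      have hlz1e : lz z1 m = (VW 0 z1)⁻¹ := by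
        unfold lz
        rw [if_pos hrg]
      rw [hlz1e]
      have hmle : (m : ℝ) ≤ (B : ℝ) ^ 3 := by
        have h1 : m ≤ 4 * (B : ℤ) ^ 2 + c.natAbs := by
          have : (n : ℤ) ≤ 4 * (B : ℤ) ^ 2 := by exact_mod_cast hn2
          omega
        have h2 : 4 * (B : ℤ) ^ 2 + c.natAbs ≤ (B : ℤ) ^ 3 := by
          have h3 : (c.natAbs : ℤ) ≤ B := by
            have : (c.natAbs + 1) ≤ (c.natAbs + 1) ^ 2 := Nat.le_self_pow (by norm_num) _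
            omega
          have h4 : (16 : ℤ) ≤ B := by omega
          nlinarith [sq_nonneg ((B : ℤ))]
        exact_mod_cast h1.trans h2
      have hm1 : (1 : ℝ) ≤ m := by exact_mod_cast (by omega : (1 : ℤ) ≤ m)
      rw [abs_of_nonneg (Real.log_nonneg hm1)]
      have h1 : Real.log m ≤ 3 * Real.log B := by
        have := Real.log_le_log (by linarith) hmle
        rw [Real.log_pow] at this
        exact_mod_cast this
      calc Real.log m ≤ 3 * Real.log B := h1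
        _ ≤ 3 * (2 * k * Real.log z1) := by linarith
        _ ≤ 3 * (2 * k * (C * (VW 0 z1)⁻¹)) := by
            have : (0 : ℝ) ≤ 3 * (2 * k) := by positivity
            nlinarith
        _ = 6 * C * k * (VW 0 z1)⁻¹ := by ring
    · rw [abs_zero]
      have : 0 ≤ 6 * C * k := by
        have : 0 < C := by linarith
        positivity
      exact mul_nonneg this hlz1
  have h1 : (1 : ℝ) ≤ 6 * C * k := by nlinarith
  unfold EE
  calc |lp ((n : ℤ) + c) - lz z ((n : ℤ) + c)| ≤ |lp ((n : ℤ) + c)| + |lz z ((n : ℤ) + c)| := abs_sub _ _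
    _ ≤ 6 * C * k * lz z1 ((n : ℤ) + c) + 6 * C * k * lz z ((n : ℤ) + c) := by
        apply add_le_add hlp
        rw [abs_of_nonneg hlz]
        nlinarith
    _ = 6 * C * k * NN c z z1 n := by unfold NN; ring

lemma AA_smul (κ : ℝ) (N : ℕ → ℝ) (w y : ℕ) (ρ : ℝ) (T Y M j : ℕ) :
    AA (fun n => κ * N n) w y ρ T Y M j = κ * AA N w y ρ T Y M j := by
  unfold AA
  simp only [mul_sum]
  refine sum_congr rfl fun x _ => sum_congr rfl fun t _ => ?_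
  ring

lemma DD_smul (κ : ℝ) (φ : ℕ → ℕ → ℝ) (N : ℕ → ℝ) (w y : ℕ) (ρ : ℝ) (T Y M j : ℕ) :
    DD φ (fun n => κ * N n) w y ρ T Y M j = κ * DD φ N w y ρ T Y M j := by
  unfold DD
  rw [mul_sum]
  refine sum_congr rfl fun x _ => ?_
  rw [mul_sum]
  refine sum_congr rfl fun t _ => ?_
  ring

open Classical in
/-- the orbit bound for `EE` -/
lemma orbC (hORB : S_ORB) (hMER : S_MER) : ∃ κ : ℝ, 1 ≤ κ ∧ ∀ (c : ℤ) (k z : ℕ), 2 ≤ k → ∃ B0 : ℕ, ∀ B : ℕ, B0 ≤ B →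
    ∀ z1 : ℕ, z1 ^ k ≤ B → B < (z1 + 1) ^ k → 2 ≤ z1 ∧ ∀ (T w y M0 : ℕ) (ρ : ℝ) (φ : ℕ → ℕ → ℝ), T ≤ B → 1 < ρ →
    (∀ u v, |φ u v| ≤ 1) → (∀ u v, u ≤ T → 4 * B < v → φ u v = 0) → (∀ u v, 2 * v < B → φ u v = 0) →
    |∑ u ∈ Icc 1 T, ∑ v ∈ Icc 1 (4 * B), φ u v * EE z ((u : ℤ) * v + c)| ≤
      κ * k * ((∑ u ∈ Icc 1 T, ∑ v ∈ Icc 1 (4 * B), if Bad T w y M0 ρ u v then NN c z z1 (u * v) else 0) +
      √(∑ M ∈ (PP w y).divisors.filter (fun M => M ≤ M0), ∑ j ∈ Wn ρ M, AA (NN c z z1) w y ρ T (4 * B) M j) *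
      √(∑ M ∈ (PP w y).divisors.filter (fun M => M ≤ M0), ∑ j ∈ Wn ρ M, DD φ (NN c z z1) w y ρ T (4 * B) M j)) := by
  obtain ⟨κ, hκ, hE⟩ := EE_bd hMER
  refine ⟨κ, hκ, ?_⟩
  intro c k z hk
  obtain ⟨B0, hB0⟩ := hE c k z hk
  refine ⟨B0, fun B hB z1 hz1 hz1' => ?_⟩
  obtain ⟨hz12, hEE⟩ := hB0 B hB z1 hz1 hz1'
  refine ⟨hz12, ?_⟩
  intro T w y M0 ρ φ hT hρ hφ1 hφ2 hφ3
  set E : ℕ → ℝ := fun n => if B ≤ 2 * n ∧ n ≤ 4 * B ^ 2 then EE z ((n : ℤ) + c) else 0 with hEd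
  set N : ℕ → ℝ := fun n => (κ * k) * NN c z z1 n with hN
  have hκ0 : 0 ≤ κ * k := by positivity
  have h := hORB T (4 * B) w y M0 ρ φ E N hρ hφ1 hφ2 (by
    intro n
    simp only [hEd, hN]
    split_ifs with h
    · exact hEE n h.1 h.2
    · rw [abs_zero]
      exact mul_nonneg hκ0 (NN_nonneg _ _ _ _))
  have e1 : ∑ u ∈ Icc 1 T, ∑ v ∈ Icc 1 (4 * B), φ u v * EE z ((u : ℤ) * v + c) =
      ∑ u ∈ Icc 1 T, ∑ v ∈ Icc 1 (4 * B), φ u v * E (u * v) := by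
    refine sum_congr rfl fun u hu => sum_congr rfl fun v hv => ?_
    rw [mem_Icc] at hu hv
    by_cases h2 : 2 * v < B
    · rw [hφ3 u v h2]; ring
    · simp only [hEd]
      rw [if_pos]
      · push_cast
        rfl
      · constructor
        · have : v ≤ u * v := Nat.le_mul_of_pos_left v hu.1
          omega
        · calc u * v ≤ B * (4 * B) := Nat.mul_le_mul (hu.2.trans hT) hv.2
            _ = 4 * B ^ 2 := by ring
  rw [e1]
  refine h.trans ?_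
  have e2 : ∀ M j, AA N w y ρ T (4 * B) M j = (κ * k) * AA (NN c z z1) w y ρ T (4 * B) M j := fun M j => AA_smul _ _ _ _ _ _ _ _ _
  have e3 : ∀ M j, DD φ N w y ρ T (4 * B) M j = (κ * k) * DD φ (NN c z z1) w y ρ T (4 * B) M j := fun M j => DD_smul _ _ _ _ _ _ _ _ _ _
  have e4 : (∑ u ∈ Icc 1 T, ∑ v ∈ Icc 1 (4 * B), if Bad T w y M0 ρ u v then N (u * v) else 0) =
      (κ * k) * ∑ u ∈ Icc 1 T, ∑ v ∈ Icc 1 (4 * B), if Bad T w y M0 ρ u v then NN c z z1 (u * v) else 0 := by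
    simp only [mul_sum]
    refine sum_congr rfl fun u _ => sum_congr rfl fun v _ => ?_
    split_ifs
    · rfl
    · ring
  rw [e4]
  simp only [e2, e3, ← mul_sum]
  rw [Real.sqrt_mul hκ0, Real.sqrt_mul hκ0, mul_add]
  apply add_le_add le_rfl
  have h5 : √(κ * k) * √(κ * k) = κ * k := Real.mul_self_sqrt hκ0
  have h6 : ∀ p q : ℝ, √(κ * k) * p * (√(κ * k) * q) = κ * k * (p * q) := by
    intro p q
    calc √(κ * k) * p * (√(κ * k) * q) = (√(κ * k) * √(κ * k)) * (p * q) := by ring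
      _ = _ := by rw [h5]
  exact (h6 _ _).le

/-- the ranges -/
lemma rng {B T M0 M j : ℕ} {ρ : ℝ} (hB : 2 ^ 60 ≤ B) (hT : B ≤ T ^ 2) (hT2 : T ≤ B) (hM0 : M0 ^ 16 ≤ B) (hM : 1 ≤ M)
    (hMM : M ≤ M0) (hρ1 : 1 < ρ) (hρ2 : ρ ≤ 2) (hj : j ∈ Wn ρ M) :
    B ≤ ⌊(T : ℝ) / ρ ^ (j + 1)⌋₊ ^ 3 ∧ ⌊(T : ℝ) / ρ ^ (j + 1)⌋₊ ≤ B ^ 2 ∧
    B ≤ ⌊((4 * B : ℕ) : ℝ) * ρ ^ (j + 1) / M⌋₊ ^ 3 ∧ ⌊((4 * B : ℕ) : ℝ) * ρ ^ (j + 1) / M⌋₊ ≤ B ^ 2 ∧
    (⌊(T : ℝ) / ρ ^ (j + 1)⌋₊ : ℝ) * ⌊((4 * B : ℕ) : ℝ) * ρ ^ (j + 1) / M⌋₊ ≤ T * (4 * B) / M ∧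
    (T : ℝ) ≤ 4 * M0 * ⌊(T : ℝ) / ρ ^ (j + 1)⌋₊ ∧
    ∀ m ∈ Dv ρ M j, B ≤ M / m * ⌊((4 * B : ℕ) : ℝ) * ρ ^ (j + 1) / M⌋₊ := by
  unfold Wn at hj
  rw [mem_image] at hj
  obtain ⟨m0, hm0, hjm⟩ := hj
  have hm0M : m0 ∣ M := (Nat.mem_divisors.1 hm0).1
  have hρ0 : 0 < ρ := by linarith
  have hlogρ : 0 < Real.log ρ := Real.log_pos hρ1
  have key : ∀ m : ℕ, m ∣ M → jw ρ m = j → ρ ^ j ≤ m ∧ (m : ℝ) < ρ ^ (j + 1) := by
    intro m hm hjw
    have hm1 : 1 ≤ m := Nat.pos_of_dvd_of_pos hm (by omega)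
    have hmr : (1 : ℝ) ≤ m := by exact_mod_cast hm1
    unfold jw at hjw
    have h0 : 0 ≤ Real.log m / Real.log ρ := div_nonneg (Real.log_nonneg hmr) hlogρ.le
    have h1 := Nat.floor_le h0
    have h2 := Nat.lt_floor_add_one (Real.log m / Real.log ρ)
    rw [hjw] at h1 h2
    rw [le_div_iff₀ hlogρ] at h1
    rw [div_lt_iff₀ hlogρ] at h2
    constructor
    · have h3 : Real.log (ρ ^ j) ≤ Real.log m := by rw [Real.log_pow]; exact h1
      exact (Real.log_le_log_iff (by positivity) (by linarith)).1 h3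
    · have h3 : Real.log m < Real.log (ρ ^ (j + 1)) := by rw [Real.log_pow]; push_cast; exact h2
      exact (Real.log_lt_log_iff (by linarith) (by positivity)).1 h3
  obtain ⟨hk1, hk2⟩ := key m0 hm0M hjm
  have hm0le : (m0 : ℝ) ≤ M := by exact_mod_cast Nat.le_of_dvd (by omega) hm0M
  have hMr : (1 : ℝ) ≤ M := by exact_mod_cast hM
  have hMM0 : (M : ℝ) ≤ M0 := by exact_mod_cast hMM
  have hM0r : (1 : ℝ) ≤ M0 := hMr.trans hMM0
  have hρj1 : 1 ≤ ρ ^ (j + 1) := one_le_pow₀ hρ1.le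
  have hρjpos : 0 < ρ ^ (j + 1) := by positivity
  have hρj : ρ ^ (j + 1) ≤ 2 * M := by
    rw [pow_succ]
    have : 0 < ρ ^ j := by positivity
    nlinarith
  have hBr : (2 : ℝ) ^ 60 ≤ B := by exact_mod_cast hB
  have hB0 : (0 : ℝ) < B := lt_of_lt_of_le (by norm_num) hBr
  have hTr : (B : ℝ) ≤ (T : ℝ) ^ 2 := by exact_mod_cast hT
  have hTB : (T : ℝ) ≤ B := by exact_mod_cast hT2
  have hM0B : (M0 : ℝ) ^ 16 ≤ B := by exact_mod_cast hM0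
  have hT0 : (0 : ℝ) < T := by
    by_contra hcon
    have : (T : ℝ) = 0 := le_antisymm (not_lt.1 hcon) (Nat.cast_nonneg T)
    rw [this] at hTr
    linarith
  -- T ≥ 16 M0 ...
  have hT30 : (2 : ℝ) ^ 30 ≤ T := by
    apply le_of_pow_le_pow_left₀ (by norm_num : (2 : ℕ) ≠ 0) hT0.le
    calc ((2 : ℝ) ^ 30) ^ 2 = 2 ^ 60 := by norm_num
      _ ≤ (B : ℝ) := hBr
      _ ≤ _ := hTr
  have hM8 : (M0 : ℝ) ^ 8 ≤ T := by
    apply le_of_pow_le_pow_left₀ (by norm_num : (2 : ℕ) ≠ 0) hT0.le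
    calc ((M0 : ℝ) ^ 8) ^ 2 = M0 ^ 16 := by ring
      _ ≤ (B : ℝ) := hM0B
      _ ≤ _ := hTr
  set X := ⌊(T : ℝ) / ρ ^ (j + 1)⌋₊ with hX
  set Y := ⌊((4 * B : ℕ) : ℝ) * ρ ^ (j + 1) / M⌋₊ with hY
  have hX1 : (X : ℝ) ≤ (T : ℝ) / ρ ^ (j + 1) := Nat.floor_le (by positivity)
  have hX2 : (T : ℝ) / ρ ^ (j + 1) < X + 1 := Nat.lt_floor_add_one _
  have hY1 : (Y : ℝ) ≤ ((4 * B : ℕ) : ℝ) * ρ ^ (j + 1) / M := Nat.floor_le (by positivity)
  have hY2 : ((4 * B : ℕ) : ℝ) * ρ ^ (j + 1) / M < Y + 1 := Nat.lt_floor_add_one _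
  push_cast at hY1 hY2
  have hT4 : (T : ℝ) / (2 * M0) ≤ (T : ℝ) / ρ ^ (j + 1) := by
    apply div_le_div_of_nonneg_left hT0.le (by positivity)
    linarith
  have h4M : 4 * (M0 : ℝ) ≤ T := by
    -- 4 M0 ≤ T from M0^8 ≤ T and 2^30 ≤ T
    rcases le_or_gt (M0 : ℝ) (2 ^ 10) with h | h
    · calc 4 * (M0 : ℝ) ≤ 4 * 2 ^ 10 := by linarith
        _ ≤ 2 ^ 30 := by norm_num
        _ ≤ T := hT30
    · calc 4 * (M0 : ℝ) ≤ (M0 : ℝ) ^ 7 * M0 := by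
            apply mul_le_mul_of_nonneg_right _ (by positivity)
            calc (4 : ℝ) ≤ (2 ^ 10) ^ 7 := by norm_num
              _ ≤ (M0 : ℝ) ^ 7 := pow_le_pow_left₀ (by norm_num) h.le 7
        _ = (M0 : ℝ) ^ 8 := by ring
        _ ≤ T := hM8
  have hXlow : (T : ℝ) / (4 * M0) ≤ X := by
    have h1 : (T : ℝ) / (2 * M0) = T / (4 * M0) + T / (4 * M0) := by field_simp; ring
    have h2 : 1 ≤ (T : ℝ) / (4 * M0) := by
      rw [le_div_iff₀ (by positivity)]; linarith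
    linarith
  have hX3 : (B : ℝ) ≤ (X : ℝ) ^ 3 := by
    -- X ≥ T/(4 M0), T ≥ B^(1/2), M0 ≤ T^(1/8)
    have h1 : ((T : ℝ) / (4 * M0)) ^ 8 ≤ (X : ℝ) ^ 8 := pow_le_pow_left₀ (by positivity) hXlow 8
    have h2 : (T : ℝ) ^ 7 / 4 ^ 8 ≤ ((T : ℝ) / (4 * M0)) ^ 8 := by
      rw [div_pow, mul_pow]
      rw [div_le_div_iff₀ (by norm_num) (by positivity)]
      calc (T : ℝ) ^ 7 * (4 ^ 8 * M0 ^ 8) = (T : ℝ) ^ 7 * 4 ^ 8 * M0 ^ 8 := by ring
        _ ≤ (T : ℝ) ^ 7 * 4 ^ 8 * T := by gcongr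
        _ = _ := by ring
    have h3 : ((B : ℝ)) ^ 8 ≤ ((X : ℝ) ^ 3) ^ 8 := by
      have h4 : ((T : ℝ) ^ 7 / 4 ^ 8) ^ 3 ≤ ((X : ℝ) ^ 8) ^ 3 := pow_le_pow_left₀ (by positivity) (h2.trans h1) 3
      have h5 : (B : ℝ) ^ 8 ≤ ((T : ℝ) ^ 7 / 4 ^ 8) ^ 3 := by
        calc (B : ℝ) ^ 8 ≤ ((T : ℝ) ^ 2) ^ 8 := pow_le_pow_left₀ hB0.le hTr 8
          _ = (T : ℝ) ^ 16 := by ring
          _ ≤ ((T : ℝ) ^ 7 / 4 ^ 8) ^ 3 := by
              have h6 : ((T : ℝ) ^ 7 / 4 ^ 8) ^ 3 = (T : ℝ) ^ 16 * ((T : ℝ) ^ 5 / 4 ^ 24) := by ring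
              rw [h6]
              apply le_mul_of_one_le_right (by positivity)
              rw [le_div_iff₀ (by norm_num), one_mul]
              calc (4 : ℝ) ^ 24 ≤ (2 ^ 30) ^ 5 := by norm_num
                _ ≤ (T : ℝ) ^ 5 := pow_le_pow_left₀ (by norm_num) hT30 5
      calc (B : ℝ) ^ 8 ≤ ((T : ℝ) ^ 7 / 4 ^ 8) ^ 3 := h5
        _ ≤ ((X : ℝ) ^ 8) ^ 3 := h4
        _ = ((X : ℝ) ^ 3) ^ 8 := by ring
    exact le_of_pow_le_pow_left₀ (by norm_num) (by positivity) h3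
  have hM0B2 : (M0 : ℝ) ≤ B := by linarith
  have hYlow : 2 * (B : ℝ) / M0 ≤ Y := by
    have h1 : 4 * (B : ℝ) / M0 ≤ 4 * B * ρ ^ (j + 1) / M := by
      rw [div_le_div_iff₀ (by positivity) (by positivity)]
      calc 4 * (B : ℝ) * M ≤ 4 * B * (ρ ^ (j + 1) * M0) := by
            apply mul_le_mul_of_nonneg_left _ (by positivity)
            nlinarith
        _ = _ := by ring
    have h2 : 4 * (B : ℝ) / M0 = 2 * B / M0 + 2 * B / M0 := by ring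
    have h3 : 1 ≤ 2 * (B : ℝ) / M0 := by
      rw [le_div_iff₀ (by positivity)]; linarith
    linarith
  have hYB : (B : ℝ) ≤ (Y : ℝ) ^ 3 := by
    have hM4 : (M0 : ℝ) ^ 3 ≤ B := by
      calc (M0 : ℝ) ^ 3 ≤ (M0 : ℝ) ^ 8 := pow_le_pow_right₀ hM0r (by norm_num)
        _ ≤ T := hM8
        _ ≤ B := hTB
    have h1 : (2 * (B : ℝ) / M0) ^ 3 ≤ (Y : ℝ) ^ 3 := pow_le_pow_left₀ (by positivity) hYlow 3
    refine le_trans ?_ h1
    rw [div_pow, le_div_iff₀ (by positivity)]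
    calc (B : ℝ) * M0 ^ 3 ≤ B * B := by gcongr
      _ ≤ (2 * B) ^ 3 := by
        have : (2 * (B : ℝ)) ^ 3 = (B * B) * (8 * B) := by ring
        rw [this]
        apply le_mul_of_one_le_right (by positivity)
        linarith
  refine ⟨by exact_mod_cast hX3, ?_, by exact_mod_cast hYB, ?_, ?_, ?_, ?_⟩
  · have h1 : (X : ℝ) ≤ (B : ℝ) ^ 2 := by
      calc (X : ℝ) ≤ T / ρ ^ (j + 1) := hX1
        _ ≤ T := div_le_self hT0.le hρj1
        _ ≤ B := hTB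
        _ ≤ (B : ℝ) ^ 2 := le_self_pow₀ (by linarith) (by norm_num)
    exact_mod_cast h1
  · have h1 : (Y : ℝ) ≤ (B : ℝ) ^ 2 := by
      calc (Y : ℝ) ≤ 4 * B * ρ ^ (j + 1) / M := hY1
        _ ≤ 4 * B * (2 * M) / M := by gcongr
        _ = 8 * B := by field_simp; ring
        _ ≤ (B : ℝ) * B := by
            apply mul_le_mul_of_nonneg_right _ hB0.le
            linarith
        _ = (B : ℝ) ^ 2 := by ring
    exact_mod_cast h1
  · calc (X : ℝ) * Y ≤ ((T : ℝ) / ρ ^ (j + 1)) * (4 * B * ρ ^ (j + 1) / M) := by gcongr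
      _ = T * (4 * B) / M := by field_simp
  · rw [div_le_iff₀ (by positivity)] at hXlow
    linarith
  · intro m hm
    unfold Dv at hm
    rw [mem_filter, Nat.mem_divisors] at hm
    obtain ⟨hk3, hk4⟩ := key m hm.1.1 hm.2
    have hmM : m ∣ M := hm.1.1
    have hm1 : 1 ≤ m := Nat.pos_of_dvd_of_pos hmM (by omega)
    have hmr : (1 : ℝ) ≤ m := by exact_mod_cast hm1
    have hdiv : ((M / m : ℕ) : ℝ) = (M : ℝ) / m := Nat.cast_div hmM (by positivity)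
    have h1 : (B : ℝ) ≤ ((M / m : ℕ) : ℝ) * Y := by
      have h2 : ((M : ℝ) / m) * (4 * B * ρ ^ (j + 1) / M - 1) ≤ ((M : ℝ) / m) * Y := by
        apply mul_le_mul_of_nonneg_left _ (by positivity)
        linarith
      have h3 : ((M : ℝ) / m) * (4 * B * ρ ^ (j + 1) / M - 1) = 4 * B * (ρ ^ (j + 1) / m) - M / m := by
        field_simp
      have h4 : 1 ≤ ρ ^ (j + 1) / m := by rw [le_div_iff₀ (by positivity)]; linarith
      have h5 : (M : ℝ) / m ≤ M0 := (div_le_self (by positivity) hmr).trans hMM0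
      have h6 : 4 * (B : ℝ) * 1 ≤ 4 * B * (ρ ^ (j + 1) / m) := mul_le_mul_of_nonneg_left h4 (by positivity)
      rw [hdiv]
      linarith
    exact_mod_cast h1

end

end Pool.Agent.N728.QL
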