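import Pool.Agent.N728.QL.Base

set_option autoImplicit false

/-! The off-diagonal terms: GVN and BOX imply OFF. -/

namespace Pool.Agent.N728.QL

open Finset

lemma cop_div {w y M m : ℕ} {a : ℤ} (ha : a ≠ 0) (haw : a.natAbs ≤ w) (hM : M ∣ PP w y) (hm : m ∣ M) :
    IsCoprime ((M / m : ℕ) : ℤ) (a * m) := by
  have hsq : Squarefree M := (PP_squarefree w y).squarefree_of_dvd hM
  have e : M = M / m * m := (Nat.div_mul_cancel hm).symm
  have h1 : Nat.Coprime (M / m) m := by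
    rw [e] at hsq
    exact Nat.coprime_of_squarefree_mul hsq
  have h2 : IsCoprime ((M / m : ℕ) : ℤ) (m : ℤ) := Nat.isCoprime_iff_coprime.2 h1
  have h3 : IsCoprime ((M / m : ℕ) : ℤ) a := by
    rw [Int.isCoprime_iff_gcd_eq_one, Int.gcd_eq_natAbs, Int.natAbs_natCast]
    apply Nat.Coprime.gcd_eq_one
    apply Nat.Coprime.symm
    rw [Nat.coprime_comm]
    by_contra hcon
    obtain ⟨p, hp, hp1, hp2⟩ := Nat.Prime.not_coprime_iff_dvd.1 hcon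
    have h4 := dvd_PP hp ((hp1.trans (Nat.div_dvd_of_dvd hm)).trans hM)
    have h5 : p ≤ a.natAbs := Nat.le_of_dvd (Int.natAbs_pos.2 ha) hp2
    omega
  exact h3.mul_right h2

theorem off (hG : S_GVN) (hB : ∀ c : ℤ, c ≠ 0 → S_BOX c) (a c : ℤ) (ha : a ≠ 0) (hc : c ≠ 0) : S_OFF a c := by
  obtain ⟨K', hK', hbox⟩ := hB c hc
  refine ⟨4 * K', by omega, ?_⟩
  intro k w y M0 hk hw hcw haw hwy ε hε
  by_cases hy3 : 3 ≤ y
  swap
  · refine ⟨0, fun z _ => ⟨0, ?_⟩⟩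
    intro B hBB z1 X Y M m m' F hz1 hz1k hM hMM hm hm' hmm
    exfalso
    have hy : y = 2 ∧ w = 2 := by omega
    have h1 : PP w y = 1 := by
      rw [hy.1, hy.2]
      unfold PP
      simp
    rw [h1] at hM
    have h2 : M = 1 := Nat.dvd_one.1 hM
    subst h2
    have h3 := Nat.dvd_one.1 hm
    have h4 := Nat.dvd_one.1 hm'
    omega
  obtain ⟨z0, hz⟩ := hbox k w y (M0 + a.natAbs * M0) (by omega) hw hcw hwy hy3 (ε ^ 4 / 3) (by positivity)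
  refine ⟨z0, fun z hzz => ?_⟩
  obtain ⟨B0, hB0⟩ := hz z hzz
  refine ⟨max B0 (max ((M0 + 1) ^ 3) 1), ?_⟩
  intro B hBB z1 X Y M m m' F hz1 hz1k hM hMM hm hm' hmm hX hX2 hY2 hY hY' hF
  have hBB0 : B0 ≤ B := (le_max_left _ _).trans hBB
  have hBM : (M0 + 1) ^ 3 ≤ B := (le_max_left _ _).trans ((le_max_right _ _).trans hBB)
  have hB1 : 1 ≤ B := (le_max_right _ _).trans ((le_max_right _ _).trans hBB)
  have hM0 : 0 < M := Nat.pos_of_dvd_of_pos hM (PP_pos w y)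
  have hA0 : 0 < M / m := Nat.div_pos (Nat.le_of_dvd hM0 hm) (Nat.pos_of_dvd_of_pos hm hM0)
  have hA0' : 0 < M / m' := Nat.div_pos (Nat.le_of_dvd hM0 hm') (Nat.pos_of_dvd_of_pos hm' hM0)
  have hM0X : M0 ≤ X := by
    have h1 : (M0 + 1) ^ 3 ≤ X ^ 3 := hBM.trans hX
    have h2 : M0 + 1 ≤ X := by
      by_contra hcon
      have : X ^ 3 < (M0 + 1) ^ 3 := Nat.pow_lt_pow_left (by omega) (by norm_num)
      omega
    omega
  have hAX : M / m ≤ X := ((Nat.div_le_self _ _).trans hMM).trans hM0X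
  have hAX' : M / m' ≤ X := ((Nat.div_le_self _ _).trans hMM).trans hM0X
  have hmM0 : m ≤ M0 := (Nat.le_of_dvd hM0 hm).trans hMM
  have hmM0' : m' ≤ M0 := (Nat.le_of_dvd hM0 hm').trans hMM
  have hM01 : 1 ≤ M0 := hM0.trans_le hMM
  have hlogy : 1 ≤ Real.log y := by
    have h1 : Real.exp 1 ≤ y := by
      have := Real.exp_one_lt_d9
      have : (3 : ℝ) ≤ y := by exact_mod_cast hy3
      linarith
    rwa [Real.le_log_iff_exp_le (by linarith [Real.exp_pos 1])]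
  -- GVN
  have hX1 : 1 ≤ X := hM01.trans hM0X
  have hY1 : 1 ≤ Y := by
    by_contra hcon
    have : Y = 0 := by omega
    subst this
    omega
  have hg := hG X Y B (M / m) (M / m') (a * m) (a * m') (fB c w y z z1 X Y M) F F hA0 hA0'
    (cop_div ha haw hM hm) (cop_div ha haw hM hm') hAX hAX' (by
      intro x t hxt
      unfold fB
      rw [if_neg hxt]) hF hF
  have hYB : B ≤ Y ^ 3 := by
    have h1 : B ≤ M0 * Y := hY.trans (Nat.mul_le_mul_right _ ((Nat.div_le_self _ _).trans hMM))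
    have h2 : B * (M0 + 1) ^ 3 ≤ B * B := Nat.mul_le_mul_left _ hBM
    have h3 : B ^ 3 ≤ M0 ^ 3 * Y ^ 3 := by
      calc B ^ 3 ≤ (M0 * Y) ^ 3 := Nat.pow_le_pow_left h1 3
        _ = M0 ^ 3 * Y ^ 3 := by ring
    by_contra hcon
    have h4 : Y ^ 3 < B := by omega
    have h5 : M0 ^ 3 * Y ^ 3 < (M0 + 1) ^ 3 * B := by
      calc M0 ^ 3 * Y ^ 3 ≤ (M0 + 1) ^ 3 * Y ^ 3 := Nat.mul_le_mul_right _ (Nat.pow_le_pow_left (by omega) 3)
        _ < (M0 + 1) ^ 3 * B := Nat.mul_lt_mul_of_pos_left h4 (by positivity)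
    have h6 : (M0 + 1) ^ 3 * B ≤ B ^ 3 := by
      calc (M0 + 1) ^ 3 * B = B * (M0 + 1) ^ 3 := by ring
        _ ≤ B * B := h2
        _ = B ^ 2 := by ring
        _ ≤ B ^ 3 := Nat.pow_le_pow_right hB1 (by norm_num)
    omega
  have hbx := hB0 B hBB0 z1 X Y M (M / m) (M / m') (a * m) (a * m') hz1 hz1k hM (by omega)
    (Nat.div_dvd_of_dvd hm) (Nat.div_dvd_of_dvd hm') (by
      rw [Int.natAbs_mul, Int.natAbs_natCast]
      have := Nat.mul_le_mul_left a.natAbs hmM0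
      omega) (by
      rw [Int.natAbs_mul, Int.natAbs_natCast]
      have := Nat.mul_le_mul_left a.natAbs hmM0'
      omega) hX hX2 hYB hY2
  set G := ∑ t ∈ Icc (-((X / (M / m) : ℕ) : ℤ)) ((X / (M / m) : ℕ) : ℤ),
    ∑ r ∈ Icc (-((X / (M / m') : ℕ) : ℤ)) ((X / (M / m') : ℕ) : ℤ),
    |∑ x ∈ Icc (1 : ℤ) X, ∑ s ∈ Icc (1 : ℤ) Y, fB c w y z z1 X Y M x s *
      fB c w y z z1 X Y M (x + t * ↑(M / m)) (s + t * (a * m)) *
      fB c w y z z1 X Y M (x + r * ↑(M / m')) (s + r * (a * m')) *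
      fB c w y z z1 X Y M (x + t * ↑(M / m) + r * ↑(M / m')) (s + t * (a * m) + r * (a * m'))| with hGd
  set S := ∑ x ∈ Icc 1 X, ∑ t ∈ Icc 1 Y, rg w y x * rg w y t * dz z z1 ((M : ℤ) * x * t + c) *
      F (((M / m : ℕ) : ℤ) * t - a * m * x) * F (((M / m' : ℕ) : ℤ) * t - a * m' * x) with hS
  have eS : ∑ x ∈ Icc (1 : ℤ) X, ∑ t ∈ Icc (1 : ℤ) Y, fB c w y z z1 X Y M x t *
      F (((M / m : ℕ) : ℤ) * t - a * m * x) * F (((M / m' : ℕ) : ℤ) * t - a * m' * x) = S := by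
    rw [sum_Icc_int X (fun x : ℤ => ∑ t ∈ Icc (1 : ℤ) Y, fB c w y z z1 X Y M x t *
      F (((M / m : ℕ) : ℤ) * t - a * m * x) * F (((M / m' : ℕ) : ℤ) * t - a * m' * x)), hS]
    apply sum_congr rfl
    intro x hx
    rw [sum_Icc_int Y (fun t : ℤ => fB c w y z z1 X Y M (x : ℤ) t *
      F (((M / m : ℕ) : ℤ) * t - a * m * (x : ℤ)) * F (((M / m' : ℕ) : ℤ) * t - a * m' * (x : ℤ)))]
    apply sum_congr rfl
    intro t ht
    rw [mem_Icc] at hx ht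
    unfold fB
    rw [if_pos (by omega)]
  rw [eS] at hg
  have hAr : (0 : ℝ) < ((M / m : ℕ) : ℝ) := by exact_mod_cast hA0
  have hAr' : (0 : ℝ) < ((M / m' : ℕ) : ℝ) := by exact_mod_cast hA0'
  have hXr : (0 : ℝ) < X := by exact_mod_cast hX1
  have hYr : (0 : ℝ) < Y := by exact_mod_cast hY1
  have hBr : (0 : ℝ) < B := by exact_mod_cast hB1
  set err : ℝ := K' * Real.log y ^ K' * (2 : ℝ) ^ (-((k : ℝ) / K')) + ε ^ 4 / 3 with herr
  have herr0 : 0 ≤ err := by positivity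
  have h4 : S ^ 4 ≤ 3 * err * ((X : ℝ) * Y) ^ 4 := by
    have h1 : S ^ 4 ≤ (B : ℝ) ^ 3 * (3 * X / ((M / m : ℕ) : ℝ)) *
        (err * ((X : ℝ) * Y * (X / ((M / m : ℕ) : ℝ)) * (X / ((M / m' : ℕ) : ℝ)))) := by
      refine hg.trans ?_
      apply mul_le_mul_of_nonneg_left hbx (by positivity)
    have h2 : (B : ℝ) ^ 3 ≤ ((M / m : ℕ) : ℝ) ^ 2 * ((M / m' : ℕ) : ℝ) * (Y : ℝ) ^ 3 := by
      have e1 : (B : ℝ) ≤ ((M / m : ℕ) : ℝ) * Y := by exact_mod_cast hY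
      have e2 : (B : ℝ) ≤ ((M / m' : ℕ) : ℝ) * Y := by exact_mod_cast hY'
      calc (B : ℝ) ^ 3 = B * B * B := by ring
        _ ≤ (((M / m : ℕ) : ℝ) * Y) * (((M / m : ℕ) : ℝ) * Y) * (((M / m' : ℕ) : ℝ) * Y) := by
            gcongr
        _ = _ := by ring
    calc S ^ 4 ≤ (B : ℝ) ^ 3 * (3 * X / ((M / m : ℕ) : ℝ)) *
        (err * ((X : ℝ) * Y * (X / ((M / m : ℕ) : ℝ)) * (X / ((M / m' : ℕ) : ℝ)))) := h1
      _ ≤ (((M / m : ℕ) : ℝ) ^ 2 * ((M / m' : ℕ) : ℝ) * (Y : ℝ) ^ 3) * (3 * X / ((M / m : ℕ) : ℝ)) *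
        (err * ((X : ℝ) * Y * (X / ((M / m : ℕ) : ℝ)) * (X / ((M / m' : ℕ) : ℝ)))) := by
          gcongr
      _ = 3 * err * ((X : ℝ) * Y) ^ 4 := by
          field_simp
  have hK0 : (0 : ℝ) < K' := by exact_mod_cast hK'
  have hK1 : (1 : ℝ) ≤ K' := by exact_mod_cast hK'
  apply le_of_pow_le_pow_left₀ (by norm_num : (4 : ℕ) ≠ 0) (by positivity)
  rw [Even.pow_abs (by decide : Even 4)]
  refine h4.trans ?_
  rw [mul_pow (_ + ε) ((X : ℝ) * Y) 4]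
  apply mul_le_mul_of_nonneg_right _ (by positivity)
  set α : ℝ := ((4 * K' : ℕ) : ℝ) * Real.log y ^ (4 * K') * (2 : ℝ) ^ (-((k : ℝ) / ((4 * K' : ℕ) : ℝ))) with hα
  have hα0 : 0 ≤ α := by positivity
  have h5 : α ^ 4 + ε ^ 4 ≤ (α + ε) ^ 4 := by
    have : (α + ε) ^ 4 = α ^ 4 + ε ^ 4 + (4 * α ^ 3 * ε + 6 * α ^ 2 * ε ^ 2 + 4 * α * ε ^ 3) := by ring
    have h6 : 0 ≤ 4 * α ^ 3 * ε + 6 * α ^ 2 * ε ^ 2 + 4 * α * ε ^ 3 := by positivity
    linarith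
  refine le_trans ?_ h5
  have h7 : 3 * err = 3 * (K' * Real.log y ^ K' * (2 : ℝ) ^ (-((k : ℝ) / K'))) + ε ^ 4 := by
    rw [herr]; ring
  rw [h7]
  apply add_le_add _ le_rfl
  have h8 : α ^ 4 = (4 * K') ^ 4 * (Real.log y ^ (4 * K')) ^ 4 * (2 : ℝ) ^ (-((k : ℝ) / K')) := by
    rw [hα, mul_pow, mul_pow, ← Real.rpow_natCast ((2 : ℝ) ^ _) 4, ← Real.rpow_mul (by norm_num)]
    congr 2
    · push_cast; ring
    · push_cast
      field_simp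
  rw [h8]
  have h9 : 3 * (K' : ℝ) ≤ (4 * K') ^ 4 := by
    have : (4 * (K' : ℝ)) ^ 4 = 256 * K' ^ 4 := by ring
    rw [this]
    have h10 : (K' : ℝ) ≤ K' ^ 4 := le_self_pow₀ hK1 (by norm_num)
    linarith
  have h10 : Real.log y ^ K' ≤ (Real.log y ^ (4 * K')) ^ 4 := by
    rw [← pow_mul]
    exact pow_le_pow_right₀ hlogy (by omega)
  calc 3 * (K' * Real.log y ^ K' * (2 : ℝ) ^ (-((k : ℝ) / K'))) = (3 * K') * Real.log y ^ K' * (2 : ℝ) ^ (-((k : ℝ) / K')) := by ring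
    _ ≤ _ := by gcongr

end Pool.Agent.N728.QL
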