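import Pool.Agent.N728.QL.MC
import Pool.Agent.N728.QL.Off
import Pool.Agent.N756.QL.STA
import Pool.Agent.N999.QL.B2
import Pool.Agent.N134.QL.BC
import Pool.Agent.N199.QL.FIN
import Pool.Agent.N401.QL.CST
import Pool.Agent.N92.QL.LOC
import Pool.Agent.N403.QL.BVH
import Pool.Agent.N49.QL.B4
import Pool.Agent.N99.QL.QB
import Pool.Agent.N691.QL.PS
import Pool.Agent.N547.QL.QBA
import Pool.Agent.N558.QL.SM
import Pool.Agent.N372.QL.DS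
import Pool.Agent.N340.QL.HZ
import Pool.Agent.N364.QL.Box
import Pool.Agent.N327.QL.SP
import Pool.Agent.N319.QL.AVG
import Pool.Agent.N608.QL.AV1
import Pool.Agent.N82.QL.FLB
import Pool.Agent.N482.QL.GVN
import Pool.Agent.N630.QL.BAD
import Pool.Agent.N383.QL.U0
import Pool.Agent.N835.QL.U1
import Pool.Agent.N136.QL.FLC
import Pool.Agent.N40.QL.MER
import Pool.Agent.N40.QL.EK
import Pool.Agent.N426.QL.ORB

set_option autoImplicit false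

/-! Assembly of project QL. -/

namespace Pool.Agent.N728.QL

theorem ps : S_PS := fun q A hq => Pool.Agent.N691.QL.ps0 Pool.Agent.N403.QL.t_BVH q A hq

theorem allU1 : ∀ c : ℤ, c ≠ 0 → S_U1 c := Pool.Agent.N835.QL.t_U1 Pool.Agent.N136.QL.t_FLC Pool.Agent.N40.QL.t_MER
theorem allU0 : ∀ c : ℤ, c ≠ 0 → S_U0 c := Pool.Agent.N383.QL.t_U0 Pool.Agent.N136.QL.t_FLC Pool.Agent.N40.QL.t_MER
theorem allBAD : ∀ c : ℤ, c ≠ 0 → S_BAD c := Pool.Agent.N630.QL.t_BAD allU0 Pool.Agent.N40.QL.t_MER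
theorem allDS : ∀ c : ℤ, c ≠ 0 → S_DS c := Pool.Agent.N372.QL.t_DS allU1 Pool.Agent.N40.QL.t_MER
theorem allBOX : ∀ c : ℤ, c ≠ 0 → S_BOX c := Pool.Agent.N364.QL.t_BOX
  (Pool.Agent.N82.QL.t_FLB Pool.Agent.N136.QL.t_FLC Pool.Agent.N40.QL.t_MER)
  (Pool.Agent.N319.QL.t_AVG Pool.Agent.N608.QL.t_AV1) Pool.Agent.N40.QL.t_MER

/-- stage A -/
theorem stageA : ∀ a c : ℤ, a ≠ 0 → c ≠ 0 → S_A a c := Pool.Agent.N756.QL.t_A Pool.Agent.N426.QL.t_ORB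
  Pool.Agent.N40.QL.t_EK Pool.Agent.N40.QL.t_MER allU1 allBAD (off Pool.Agent.N482.QL.t_GVN allBOX)
  Pool.Agent.N327.QL.t_SP

theorem qb : S_QB := Pool.Agent.N99.QL.t_QB (Pool.Agent.N547.QL.t_QBA Pool.Agent.N40.QL.t_MER) ps Pool.Agent.N40.QL.t_MER

/-- stage B -/
theorem stageB : ∀ a c : ℤ, a ≠ 0 → c ≠ 0 → S_BC a c := Pool.Agent.N134.QL.t_BC Pool.Agent.N558.QL.t_SM
  (Pool.Agent.N999.QL.t_B2 Pool.Agent.N426.QL.t_ORB Pool.Agent.N40.QL.t_EK Pool.Agent.N40.QL.t_MER allU1 allBAD qb allDS)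
  (Pool.Agent.N49.QL.t_B4 Pool.Agent.N403.QL.t_BVH (Pool.Agent.N340.QL.t_HZ Pool.Agent.N40.QL.t_MER) Pool.Agent.N40.QL.t_MER)
  allU0 Pool.Agent.N40.QL.t_MER

/-- the mean value theorem -/
theorem allMC : ∀ a c : ℤ, a ≠ 0 → c ≠ 0 → S_MC a c := mc stageA stageB Pool.Agent.N40.QL.t_MER

/-- the final theorem -/
theorem final (a c : ℤ) (ha : 0 < a) (hc : c ≠ 0) : Final a c :=
  Pool.Agent.N199.QL.t_FIN a c ha hc (allMC a c ha.ne' hc) Pool.Agent.N92.QL.t_LOC (Pool.Agent.N401.QL.t_CST a c ha hc)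
    Pool.Agent.N40.QL.t_MER

end Pool.Agent.N728.QL
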