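import Pool.Agent.N728.QL.All

set_option autoImplicit false

/-!
# Conjecture F of Hardy and Littlewood for almost all linear coefficients

Fix integers `a > 0` and `c ≠ 0`. There is an exponent `C₁` such that for every `ε > 0` and `C₂`, all large `B` and all
`T` with `B / (log B)^C₂ ≤ T ≤ B / (log B)^C₁`: for all but at most `ε B` of the integers `1 ≤ b ≤ B` for which
`(a, b, c)` is admissible, the product `C(a, b, c)` converges and

`|π_f(T) - 2 C(a, b, c) ∑_{t ≤ T} 1 / log f(t)| ≤ ε T / log T`, `f(t) = a t² + b t + c`.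

Proof (`Agent/N728/QL`): `f(t) = u v + c` with `u = t`, `v = b + a t`. Bilinear sums over `u v + c` with an arbitrary
bounded function of `b = v - a u` do not change if a divisor of `u v`, composed of primes of a suitable range, is moved
from `u` to `v`; by the multiplication table phenomenon of Erdős few multiplicative windows contain such a divisor, and
the off-diagonal terms are bounded by two applications of the Cauchy-Schwarz inequality and the fundamental lemma of the
sieve (functions with mean zero on the cells (residue class and block)), and by the prime number theorem for the moved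
divisors and the theorem of Bombieri and Vinogradov at the sharp level (functions constant on the cells).
-/

namespace Pool.Agent.N728.QL.Draft

open Finset Filter Topology

/-- The polynomial. -/
def f (a b c : ℤ) (t : ℕ) : ℤ := a * (t : ℤ) ^ 2 + b * t + c

/-- The triple `(a, b, c)`, `a > 0`, is admissible. -/
def Admissible (a b c : ℤ) : Prop :=
  Int.gcd (Int.gcd a b : ℤ) c = 1 ∧ ¬ (Even (a + b) ∧ Even c) ∧ ¬ IsSquare (b ^ 2 - 4 * a * c)

/-- The products which define `C(a, b, c)`, over the primes `p ≤ z` (`jacobiSym Δ p` is the Legendre symbol). -/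
noncomputable def partialC (a b c : ℤ) (z : ℕ) : ℝ :=
  (if Odd (a + b) then 1 / 2 else 1) *
    (∏ p ∈ (Icc 3 z).filter (fun p : ℕ => p.Prime ∧ (p : ℤ) ∣ a ∧ (p : ℤ) ∣ b), (p : ℝ) / (p - 1)) *
    ∏ p ∈ (Icc 3 z).filter (fun p : ℕ => p.Prime ∧ ¬ (p : ℤ) ∣ a),
      (1 - (jacobiSym (b ^ 2 - 4 * a * c) p : ℝ) / (p - 1))

/-- `K = C(a, b, c)`: the products over the primes, in increasing order, converge to `K`. -/
def IsC (a b c : ℤ) (K : ℝ) : Prop := Tendsto (partialC a b c) atTop (𝓝 K)

/-- `π_f(y)`. -/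
def count (a b c : ℤ) (y : ℕ) : ℕ := ((Icc 1 y).filter (fun t : ℕ => (f a b c t).toNat.Prime)).card

/-- The conclusion for one linear coefficient `b`. -/
def Good (a c : ℤ) (ε : ℝ) (T : ℕ) (b : ℤ) : Prop :=
  ∃ K : ℝ, IsC a b c K ∧
    |(count a b c T : ℝ) - 2 * K * ∑ t ∈ Icc 1 T, 1 / Real.log ((f a b c t : ℤ) : ℝ)| ≤ ε * (T / Real.log T)

open Classical in
/-- The number of the integers `1 ≤ b ≤ B` for which `(a, b, c)` is admissible and the conclusion fails. -/
noncomputable def exceptions (a c : ℤ) (ε : ℝ) (B T : ℕ) : ℕ :=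
  ((Icc 1 B).filter (fun b : ℕ => Admissible a b c ∧ ¬ Good a c ε T b)).card

theorem result (a c : ℤ) (ha : 0 < a) (hc : c ≠ 0) :
    ∃ C₁ : ℕ, ∀ ε : ℝ, 0 < ε → ∀ C₂ : ℕ, ∃ B₀ : ℕ, ∀ B : ℕ, B₀ ≤ B → ∀ T : ℕ,
      (B : ℝ) ≤ T * Real.log B ^ C₂ → (T : ℝ) * Real.log B ^ C₁ ≤ B →
      (exceptions a c ε B T : ℝ) ≤ ε * B := by
  classical
  obtain ⟨C₁, h⟩ := Pool.Agent.N728.QL.final a c ha hc
  refine ⟨C₁, fun ε hε C₂ => ?_⟩
  obtain ⟨B₀, h0⟩ := h ε hε C₂
  refine ⟨B₀, fun B hB T h1 h2 => ?_⟩
  have h3 := h0 B hB T h1 h2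
  refine le_trans (le_of_eq ?_) h3
  unfold exceptions
  congr!

end Pool.Agent.N728.QL.Draft
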